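import Pool.Agent.Helper37.NRT.Small

/-!
# MP_b5afc9_al: the regular elementary abelian subgroup of order eight
-/

namespace NRT

open Equiv Equiv.Perm

/-- the affine plane over the field with two elements -/
abbrev Pl : Type := ZMod 2 × ZMod 2

/-- the affine space of dimension three over the field with two elements -/
abbrev Cu : Type := Pl × ZMod 2

/-- translation -/
def tr (u : Cu) : Perm Cu := Equiv.addRight u

theorem tr_apply (u x : Cu) : tr u x = x + u := rfl

theorem tr_mul (u w : Cu) : tr u * tr w = tr (w + u) := by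
  ext x <;> simp [tr_apply, Perm.mul_apply, add_assoc]

theorem cu_add_self (u : Cu) : u + u = 0 := by revert u; decide

theorem tr_zero : tr 0 = 1 := by ext x <;> simp [tr_apply]

theorem tr_inj {u w : Cu} (h : tr u = tr w) : u = w := by
  have := congrArg (fun f : Perm Cu => f 0) h
  simpa [tr_apply] using this

theorem tr_inv (u : Cu) : (tr u)⁻¹ = tr u := by
  rw [inv_eq_iff_mul_eq_one, tr_mul, cu_add_self, tr_zero]

/-- the group of translations -/
def Tr : Subgroup (Perm Cu) where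
  carrier := {x | ∃ u, x = tr u}
  one_mem' := ⟨0, tr_zero.symm⟩
  mul_mem' := by
    rintro _ _ ⟨u, rfl⟩ ⟨w, rfl⟩
    exact ⟨w + u, tr_mul u w⟩
  inv_mem' := by
    rintro _ ⟨u, rfl⟩
    exact ⟨u, tr_inv u⟩

theorem mem_Tr {x : Perm Cu} : x ∈ Tr ↔ ∃ u, x = tr u := Iff.rfl

/-- the special direction -/
def e0 : Cu := ((0, 0), 1)

theorem affine_plane : ∀ (π : Perm Pl) (c x : Pl), π (x + c) = π x + (π c - π 0) := by
  decide +kernel

theorem affine_fun : ∀ ε : Pl → ZMod 2, (∏ a, (if ε a = 0 then (1 : ℤˣ) else -1)) = 1 →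
    ∀ c x : Pl, ε (x + c) = ε x + (ε c - ε 0) := by
  decide +kernel

theorem sign_add (t : ZMod 2) : sign (Equiv.addRight t) = if t = 0 then (1 : ℤˣ) else -1 := by
  revert t; decide +kernel

/-- even permutations commuting with the translation by `e0` normalise the translations -/
theorem norm_of_comm (g : Perm Cu) (hs : sign g = 1) (hc : g * tr e0 = tr e0 * g) :
    ∀ w, g * tr w * g⁻¹ ∈ Tr := by
  have hc1 : ∀ x, g (x + e0) = g x + e0 := fun x => by
    have := congrArg (fun f : Perm Cu => f x) hc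
    simpa [tr_apply, Perm.mul_apply] using this
  have hb : ∀ (a : Pl) (b : ZMod 2), g (a, b) = ((g (a, 0)).1, (g (a, 0)).2 + b) := by
    intro a b
    have h2 : b = 0 ∨ b = 1 := by revert b; decide
    rcases h2 with rfl | rfl
    · simp
    · have h1 := hc1 (a, 0)
      have e1 : ((a, 0) : Cu) + e0 = (a, 1) := by simp [e0]
      rw [e1] at h1
      rw [h1]
      simp [e0, Prod.ext_iff]
  have hinj : Function.Injective (fun a : Pl => (g (a, 0)).1) := by
    intro a a' h
    dsimp only at h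
    have h1 := hb a' ((g (a, 0)).2 - (g (a', 0)).2)
    have h2 : g (a', (g (a, 0)).2 - (g (a', 0)).2) = g (a, 0) := by
      rw [h1, ← h]; simp
    have := g.injective h2
    exact (congrArg Prod.fst this).symm
  obtain ⟨π, hπ⟩ : ∃ π : Perm Pl, ∀ a, π a = (g (a, 0)).1 :=
    ⟨Equiv.ofBijective _ (Finite.injective_iff_bijective.1 hinj), fun a => rfl⟩
  obtain ⟨ε, hε⟩ : ∃ ε : Pl → ZMod 2, ∀ a, ε a = (g (a, 0)).2 := ⟨_, fun a => rfl⟩
  have hg : ∀ (a : Pl) (b : ZMod 2), g (a, b) = (π a, ε a + b) := by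
    intro a b
    rw [hb, hπ, hε]
  have hdec : g = prodCongrLeft (fun _ : ZMod 2 => π) *
      prodCongrRight (fun a : Pl => Equiv.addRight (ε a)) := by
    ext ⟨a, b⟩ <;> simp [Perm.mul_apply, hg, add_comm]
  have hprod : (∏ a, (if ε a = 0 then (1 : ℤˣ) else -1)) = 1 := by
    rw [hdec, Perm.sign_mul, sign_prodCongrLeft, sign_prodCongrRight] at hs
    simp only [sign_add] at hs
    have h2 : ∏ _k : ZMod 2, sign π = 1 := by
      rw [Finset.prod_const]
      have : (Finset.univ : Finset (ZMod 2)).card = 2 := by decide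
      rw [this]
      rcases Int.units_eq_one_or (sign π) with h | h <;> rw [h] <;> rfl
    rw [h2, one_mul] at hs
    exact hs
  have hε2 := affine_fun ε hprod
  have hπ2 := affine_plane π
  rintro ⟨c, d⟩
  refine ⟨(π c - π 0, ε c - ε 0 + d), ?_⟩
  rw [mul_inv_eq_iff_eq_mul]
  ext ⟨a, b⟩ <;> simp only [Perm.mul_apply, tr_apply, Prod.mk_add_mk, hg]
  · rw [hπ2]
  · rw [hπ2]
  · rw [hε2]; ring

/-- multiplication by a primitive element of the field with eight elements -/
def cyFun (x : Cu) : Cu := ((x.2 + x.1.2, x.1.1), x.1.2)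

def cyInv (x : Cu) : Cu := ((x.1.2, x.2), x.1.1 - x.2)

def cy : Perm Cu where
  toFun := cyFun
  invFun := cyInv
  left_inv := by decide +kernel
  right_inv := by decide +kernel

theorem cy_add (x y : Cu) : cy (x + y) = cy x + cy y := by
  revert x y; decide +kernel

theorem cy_pow_seven : cy ^ 7 = 1 := by decide +kernel

theorem cy_trans : ∀ u : Cu, u ≠ 0 → ∃ i : Fin 7, (cy ^ (i : ℕ)) u = e0 := by decide +kernel

theorem cy_sign : sign cy = 1 := by
  have h := congrArg sign cy_pow_seven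
  rw [map_pow, map_one] at h
  rcases Int.units_eq_one_or (sign cy) with h1 | h1
  · exact h1
  · rw [h1] at h
    exact absurd h (by decide)

theorem cy_tr (u : Cu) : cy * tr u * cy⁻¹ = tr (cy u) := by
  rw [mul_inv_eq_iff_eq_mul]
  apply Equiv.ext
  intro x
  simp only [Perm.mul_apply, tr_apply, cy_add]

theorem cyp_tr (i : ℕ) (u : Cu) : cy ^ i * tr u * (cy ^ i)⁻¹ = tr ((cy ^ i) u) := by
  induction i with
  | zero => simp
  | succ i ih =>
    have : cy ^ (i + 1) = cy * cy ^ i := pow_succ' _ _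
    rw [this]
    calc cy * cy ^ i * tr u * (cy * cy ^ i)⁻¹ = cy * (cy ^ i * tr u * (cy ^ i)⁻¹) * cy⁻¹ := by group
      _ = tr ((cy * cy ^ i) u) := by rw [ih, cy_tr]; rfl

theorem cyp_tr_inv (i : ℕ) (w : Cu) : ∃ w', (cy ^ i)⁻¹ * tr w * cy ^ i = tr w' := by
  refine ⟨(cy ^ i)⁻¹ w, ?_⟩
  have := cyp_tr i ((cy ^ i)⁻¹ w)
  have e : (cy ^ i) ((cy ^ i)⁻¹ w) = w := by
    rw [← Perm.mul_apply, mul_inv_cancel, Perm.one_apply]
  rw [e] at this
  rw [← this]
  group

/-- the translations form a TI-subgroup of the alternating group -/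
theorem tr_ti (g : Perm Cu) (hs : sign g = 1) {u u' : Cu} (hu : u ≠ 0) (hu' : u' ≠ 0)
    (h : g * tr u * g⁻¹ = tr u') : ∀ w, g * tr w * g⁻¹ ∈ Tr := by
  obtain ⟨i, hi⟩ := cy_trans u hu
  obtain ⟨j, hj⟩ := cy_trans u' hu'
  obtain ⟨k, hk⟩ : ∃ k : Perm Cu, k = cy ^ (j : ℕ) * g * (cy ^ (i : ℕ))⁻¹ := ⟨_, rfl⟩
  have hks : sign k = 1 := by
    rw [hk, Perm.sign_mul, Perm.sign_mul, Perm.sign_inv, map_pow, map_pow, cy_sign, hs]
    simp
  have hkc : k * tr e0 = tr e0 * k := by
    rw [← mul_inv_eq_iff_eq_mul]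
    have e1 := cyp_tr i u
    rw [hi] at e1
    have e2 := cyp_tr j u'
    rw [hj] at e2
    calc k * tr e0 * k⁻¹ = k * (cy ^ (i : ℕ) * tr u * (cy ^ (i : ℕ))⁻¹) * k⁻¹ := by rw [e1]
      _ = cy ^ (j : ℕ) * (g * tr u * g⁻¹) * (cy ^ (j : ℕ))⁻¹ := by rw [hk]; group
      _ = tr e0 := by rw [h, e2]
  have hn := norm_of_comm k hks hkc
  intro w
  have e3 := cyp_tr i w
  obtain ⟨w1, hw1⟩ := hn ((cy ^ (i : ℕ)) w)
  obtain ⟨w2, hw2⟩ := cyp_tr_inv j w1
  refine ⟨w2, ?_⟩
  rw [← hw2, ← hw1, ← e3, hk]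
  group

/-- a permutation commuting with all translations is a translation -/
theorem tr_cent (g : Perm Cu) (h : ∀ w, g * tr w = tr w * g) : g ∈ Tr := by
  refine ⟨g 0, ?_⟩
  apply Equiv.ext
  intro x
  have := congrArg (fun f : Perm Cu => f 0) (h x)
  simp only [Perm.mul_apply, tr_apply, zero_add] at this
  rw [this, tr_apply, add_comm]

/-- the three-cycle used for the non-root type -/
def g3 : Perm Cu := swap ((0, 0), 0) ((0, 0), 1) * swap ((0, 0), 1) ((0, 1), 0)

theorem g3_norm : ∀ w : Cu, ∃ w' : Cu,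
    g3⁻¹ * (tr ((0, 0), 1) * (g3 * tr w * g3⁻¹) * (tr ((0, 0), 1))⁻¹) * g3 = tr w' := by
  decide +kernel

theorem g3_notnorm : ∃ w : Cu, ∀ w' : Cu,
    g3⁻¹ * (tr ((1, 0), 0) * (g3 * tr w * g3⁻¹) * (tr ((1, 0), 0))⁻¹) * g3 ≠ tr w' := by
  decide +kernel

theorem g3_sign : sign g3 = 1 := by
  unfold g3
  rw [Perm.sign_mul, sign_swap (by decide), sign_swap (by decide)]
  rfl

theorem tr_sign (u : Cu) : sign (tr u) = 1 := by
  by_cases hu : u = 0
  · rw [hu, tr_zero, Perm.sign_one]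
  obtain ⟨i, hi⟩ := cy_trans u hu
  have e1 := congrArg sign (cyp_tr i u)
  rw [hi, Perm.sign_mul, Perm.sign_mul, Perm.sign_inv, map_pow, cy_sign, one_pow, one_mul] at e1
  rw [mul_one] at e1
  rw [e1]
  decide +kernel

end NRT
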