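import Mathlib

/-!
# MP_b5afc9_al: 2-subgroups of non-root type, definitions and the relative form
-/

namespace NRT

section defs

variable {G : Type*} [Group G]

/-- The conjugate `V ^ g = g⁻¹ V g`. -/
def conjBy (V : Subgroup G) (g : G) : Subgroup G := V.map (MulAut.conj g⁻¹).toMonoidHom

/-- `N_V(W)`, the set of the `v ∈ V` with `W ^ v = W`. -/
def relNorm (V W : Subgroup G) : Set G := {v | v ∈ V ∧ conjBy W v = W}

/-- `V` is an elementary abelian `2`-group. -/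
def ElemAb2 (V : Subgroup G) : Prop :=
  (∀ x ∈ V, x * x = 1) ∧ ∀ x ∈ V, ∀ y ∈ V, x * y = y * x

/-- `V` is a TI-subgroup: `V ∩ V ^ g` is `1` or `V` for all `g`. -/
def IsTI (V : Subgroup G) : Prop := ∀ g : G, V ⊓ conjBy V g = ⊥ ∨ V ⊓ conjBy V g = V

/-- Some `g` satisfies `1 ≠ N_V(V ^ g) ≠ V`. -/
def NonRootType (V : Subgroup G) : Prop :=
  ∃ g : G, relNorm V (conjBy V g) ≠ {1} ∧ relNorm V (conjBy V g) ≠ (V : Set G)

/-- Condition (C): for every `g` with `[V, V ^ g] = 1`, each involution of the set `V V ^ g` of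
products is conjugate in `G` to some element of `V`. -/
def CondC (V : Subgroup G) : Prop :=
  ∀ g : G, (∀ x ∈ V, ∀ y ∈ conjBy V g, x * y = y * x) →
    ∀ x ∈ V, ∀ y ∈ conjBy V g, orderOf (x * y) = 2 → ∃ z ∈ V, IsConj (x * y) z

end defs

/-- `G` contains an elementary abelian `2`-subgroup that is a TI-subgroup of non-root type and
satisfies condition (C). -/
def HasNonRoot (G : Type*) [Group G] : Prop :=
  ∃ V : Subgroup G, ElemAb2 V ∧ IsTI V ∧ NonRootType V ∧ CondC V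

section basic

variable {G : Type*} [Group G]

theorem mem_conjBy {V : Subgroup G} {g x : G} : x ∈ conjBy V g ↔ g * x * g⁻¹ ∈ V := by
  unfold conjBy
  rw [Subgroup.mem_map]
  constructor
  · rintro ⟨y, hy, rfl⟩
    simpa [mul_assoc] using hy
  · intro h
    exact ⟨g * x * g⁻¹, h, by simp [mul_assoc]⟩

/-- The relative form: `V ≤ K ≤ H`, conjugation only by elements of `K`. -/
structure Rel {H : Type*} [Group H] (K V : Subgroup H) : Prop where
  le : V ≤ K
  sq : ∀ x ∈ V, x * x = 1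
  comm : ∀ x ∈ V, ∀ y ∈ V, x * y = y * x
  ti : ∀ g ∈ K, ∀ v ∈ V, v ≠ 1 → g * v * g⁻¹ ∈ V → ∀ x ∈ V, g * x * g⁻¹ ∈ V

/-- relative non-root type -/
def RelNR {H : Type*} [Group H] (K V : Subgroup H) : Prop :=
  ∃ g ∈ K, (∃ v ∈ V, v ≠ 1 ∧ ∀ w ∈ V, g⁻¹ * (v * (g * w * g⁻¹) * v⁻¹) * g ∈ V) ∧
    ∃ u ∈ V, ∃ w ∈ V, g⁻¹ * (u * (g * w * g⁻¹) * u⁻¹) * g ∉ V

/-- relative condition (C) -/
def RelC {H : Type*} [Group H] (K V : Subgroup H) : Prop :=
  ∀ g ∈ K, (∀ x ∈ V, ∀ y ∈ V, x * (g * y * g⁻¹) = (g * y * g⁻¹) * x) →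
    ∀ x ∈ V, ∀ y ∈ V, x * (g * y * g⁻¹) ≠ 1 →
      ∃ k ∈ K, k * (x * (g * y * g⁻¹)) * k⁻¹ ∈ V

/-- conjugation by an element of finite order preserves a finite subgroup -/
theorem conj_inv_mem {H : Type*} [Group H] [Finite H] {V : Subgroup H} {g : H}
    (h : ∀ x ∈ V, g * x * g⁻¹ ∈ V) : ∀ x ∈ V, g⁻¹ * x * g ∈ V := by
  have h1 : V.map (MulAut.conj g).toMonoidHom ≤ V := by
    rintro _ ⟨x, hx, rfl⟩
    simpa using h x hx
  have h2 : Nat.card (V.map (MulAut.conj g).toMonoidHom) = Nat.card V :=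
    Subgroup.card_map_of_injective (MulAut.conj g).injective
  have h3 : V.map (MulAut.conj g).toMonoidHom = V := by
    apply SetLike.coe_injective
    apply Set.eq_of_subset_of_ncard_le h1 _ (Set.toFinite _)
    rw [← Nat.card_coe_set_eq, ← Nat.card_coe_set_eq]
    exact h2.ge
  intro x hx
  rw [← h3] at hx
  obtain ⟨y, hy, hyx⟩ := hx
  have : g * y * g⁻¹ = x := by simpa using hyx
  rw [← this]
  simpa [mul_assoc] using hy

theorem rel_of {G H : Type*} [Group G] [Group H] [Finite H] (φ : G →* H)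
    (hφ : Function.Injective φ) (V : Subgroup G) (h1 : ElemAb2 V) (h2 : IsTI V) :
    Rel φ.range (V.map φ) := by
  refine ⟨?_, ?_, ?_, ?_⟩
  · rintro _ ⟨x, -, rfl⟩
    exact ⟨x, rfl⟩
  · rintro _ ⟨x, hx, rfl⟩
    rw [← map_mul, h1.1 x hx, map_one]
  · rintro _ ⟨x, hx, rfl⟩ _ ⟨y, hy, rfl⟩
    rw [← map_mul, ← map_mul, h1.2 x hx y hy]
  · rintro _ ⟨g, rfl⟩ _ ⟨v, hv, rfl⟩ hv1 hgv _ ⟨x, hx, rfl⟩
    have e : ∀ y : G, φ g * φ y * (φ g)⁻¹ = φ (g * y * g⁻¹) := by intro y; simp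
    rw [e] at hgv ⊢
    rw [Subgroup.mem_map_iff_mem hφ] at hgv ⊢
    have hv' : v ∈ V := hv
    rcases h2 g with h | h
    · exfalso
      apply hv1
      have : v ∈ V ⊓ conjBy V g := ⟨hv', mem_conjBy.2 hgv⟩
      rw [h, Subgroup.mem_bot] at this
      rw [this, map_one]
    · have : x ∈ V ⊓ conjBy V g := by rw [h]; exact hx
      exact mem_conjBy.1 this.2

theorem relNR_of {G H : Type*} [Group G] [Group H] [Finite H] (φ : G →* H)
    (hφ : Function.Injective φ) (V : Subgroup G) (h : NonRootType V) :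
    RelNR φ.range (V.map φ) := by
  have : Finite G := Finite.of_injective φ hφ
  obtain ⟨g, h1, h2⟩ := h
  have key : ∀ v ∈ V, conjBy (conjBy V g) v = conjBy V g ↔
      ∀ w ∈ V, g * (v * (g⁻¹ * w * g) * v⁻¹) * g⁻¹ ∈ V := by
    intro v hv
    constructor
    · intro h w hw
      have : g⁻¹ * w * g ∈ conjBy (conjBy V g) v := by
        rw [h, mem_conjBy]
        simpa [mul_assoc] using hw
      rw [mem_conjBy, mem_conjBy] at this
      exact this
    · intro h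
      have h' : ∀ x ∈ V, (g * v * g⁻¹) * x * (g * v * g⁻¹)⁻¹ ∈ V := by
        intro x hx
        have := h x hx
        have e : g * (v * (g⁻¹ * x * g) * v⁻¹) * g⁻¹ = (g * v * g⁻¹) * x * (g * v * g⁻¹)⁻¹ := by
          group
        rwa [e] at this
      ext x
      rw [mem_conjBy, mem_conjBy, mem_conjBy]
      constructor
      · intro hx
        have := conj_inv_mem h' _ hx
        have e : (g * v * g⁻¹)⁻¹ * (g * (v * x * v⁻¹) * g⁻¹) * (g * v * g⁻¹) = g * x * g⁻¹ := by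
          group
        rwa [e] at this
      · intro hx
        have := h' _ hx
        have e : (g * v * g⁻¹) * (g * x * g⁻¹) * (g * v * g⁻¹)⁻¹ = g * (v * x * v⁻¹) * g⁻¹ := by
          group
        rwa [e] at this
  refine ⟨φ g⁻¹, ⟨g⁻¹, rfl⟩, ?_, ?_⟩
  · by_contra hcon
    push Not at hcon
    apply h1
    ext v
    simp only [relNorm, Set.mem_singleton_iff]
    constructor
    · rintro ⟨hv, hv2⟩
      by_contra hne
      obtain ⟨w, ⟨w', hw', rfl⟩, hw2⟩ := hcon (φ v) ⟨v, hv, rfl⟩ (by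
        intro h0
        exact hne (hφ (by rw [h0, map_one])))
      apply hw2
      rw [key v hv] at hv2
      refine ⟨_, hv2 w' hw', ?_⟩
      simp
    · rintro rfl
      refine ⟨V.one_mem, ?_⟩
      rw [key 1 V.one_mem]
      intro w hw
      simpa [mul_assoc] using hw
  · by_contra hcon
    push Not at hcon
    apply h2
    ext v
    simp only [relNorm]
    constructor
    · rintro ⟨hv, -⟩
      exact hv
    · intro hv
      refine ⟨hv, ?_⟩
      rw [key v hv]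
      intro w hw
      have := hcon (φ v) ⟨v, hv, rfl⟩ (φ w) ⟨w, hw, rfl⟩
      have e : (φ g⁻¹)⁻¹ * (φ v * (φ g⁻¹ * φ w * (φ g⁻¹)⁻¹) * (φ v)⁻¹) * φ g⁻¹
          = φ (g * (v * (g⁻¹ * w * g) * v⁻¹) * g⁻¹) := by simp
      rw [e, Subgroup.mem_map_iff_mem hφ] at this
      exact this

theorem relC_of {G H : Type*} [Group G] [Group H] [Finite H] (φ : G →* H)
    (hφ : Function.Injective φ) (V : Subgroup G) (h1 : ElemAb2 V) (h : CondC V) :
    RelC φ.range (V.map φ) := by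
  rintro _ ⟨g, rfl⟩ hc _ ⟨x, hx, rfl⟩ _ ⟨y, hy, rfl⟩ hne
  have e : ∀ y : G, φ g * φ y * (φ g)⁻¹ = φ (g * y * g⁻¹) := by intro y; simp
  have hcm : ∀ x ∈ V, ∀ y ∈ conjBy V g⁻¹, x * y = y * x := by
    intro x hx y hy
    rw [mem_conjBy] at hy
    have := hc (φ x) ⟨x, hx, rfl⟩ (φ (g⁻¹ * y * g⁻¹⁻¹)) ⟨_, hy, rfl⟩
    rw [e, ← map_mul, ← map_mul] at this
    have := hφ this
    simpa [mul_assoc] using this
  have hy' : g * y * g⁻¹ ∈ conjBy V g⁻¹ := by
    rw [mem_conjBy]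
    simpa [mul_assoc] using hy
  rw [e, ← map_mul] at hne ⊢
  have hord : orderOf (x * (g * y * g⁻¹)) = 2 := by
    apply orderOf_eq_prime
    · have hyy : (g * y * g⁻¹) * (g * y * g⁻¹) = 1 := by
        have : g * y * g⁻¹ * (g * y * g⁻¹) = g * (y * y) * g⁻¹ := by group
        rw [this, h1.1 y hy]; group
      have hc2 := hcm x hx _ hy'
      calc (x * (g * y * g⁻¹)) ^ 2 = x * ((g * y * g⁻¹) * x) * (g * y * g⁻¹) := by
            rw [pow_two]; group
        _ = (x * x) * ((g * y * g⁻¹) * (g * y * g⁻¹)) := by rw [← hc2]; group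
        _ = 1 := by rw [h1.1 x hx, hyy, one_mul]
    · intro h0
      apply hne
      rw [h0, map_one]
  obtain ⟨z, hz, hcz⟩ := h g⁻¹ hcm x hx _ hy' hord
  obtain ⟨k, hk⟩ := isConj_iff.1 hcz
  refine ⟨φ k, ⟨k, rfl⟩, z, hz, ?_⟩
  rw [← hk]
  simp

theorem isTI_comap {G H : Type*} [Group G] [Group H] (φ : G →* H)
    (hφ : Function.Injective φ) (V : Subgroup H) (h : Rel φ.range V) : IsTI (V.comap φ) := by
  have e : ∀ g y : G, φ g * φ y * (φ g)⁻¹ = φ (g * y * g⁻¹) := by intro g y; simp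
  intro g
  by_cases hb : V.comap φ ⊓ conjBy (V.comap φ) g = ⊥
  · exact Or.inl hb
  · right
    rw [inf_eq_left]
    rw [Subgroup.eq_bot_iff_forall] at hb
    push Not at hb
    obtain ⟨v, hv, hv1⟩ := hb
    have hv2 := mem_conjBy.1 hv.2
    intro x hx
    rw [mem_conjBy, Subgroup.mem_comap, ← e]
    refine h.ti (φ g) ⟨g, rfl⟩ (φ v) hv.1 ?_ ?_ (φ x) hx
    · intro h0
      exact hv1 (hφ (by rw [h0, map_one]))
    · rw [e]; exact hv2

theorem nonRoot_comap {G H : Type*} [Group G] [Group H] [Finite H] (φ : G →* H)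
    (hφ : Function.Injective φ) (V : Subgroup H) (h : Rel φ.range V)
    (hn : RelNR φ.range V) : NonRootType (V.comap φ) := by
  have : Finite G := Finite.of_injective φ hφ
  obtain ⟨_, ⟨g, rfl⟩, ⟨v, hv, hv1, hv2⟩, ⟨u, hu, w, hw, huw⟩⟩ := hn
  obtain ⟨v, rfl⟩ := h.le hv
  obtain ⟨u, rfl⟩ := h.le hu
  obtain ⟨w, rfl⟩ := h.le hw
  have e3 : ∀ a b : G, (φ g)⁻¹ * (φ a * (φ g * φ b * (φ g)⁻¹) * (φ a)⁻¹) * φ g
        = φ (g⁻¹ * (a * (g * b * g⁻¹) * a⁻¹) * g) := by intro a b; simp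
  refine ⟨g⁻¹, ?_, ?_⟩
  · intro h0
    have hv3 : v ∈ relNorm (V.comap φ) (conjBy (V.comap φ) g⁻¹) := by
      refine ⟨hv, ?_⟩
      have h' : ∀ x ∈ V.comap φ, (g⁻¹ * v * g) * x * (g⁻¹ * v * g)⁻¹ ∈ V.comap φ := by
        intro x hx
        have := hv2 (φ x) hx
        rw [e3] at this
        have e4 : g⁻¹ * (v * (g * x * g⁻¹) * v⁻¹) * g = (g⁻¹ * v * g) * x * (g⁻¹ * v * g)⁻¹ := by
          group
        rw [e4] at this
        exact this
      ext x
      rw [mem_conjBy, mem_conjBy, mem_conjBy]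
      constructor
      · intro hx
        have := conj_inv_mem h' _ hx
        have e : (g⁻¹ * v * g)⁻¹ * (g⁻¹ * (v * x * v⁻¹) * g⁻¹⁻¹) * (g⁻¹ * v * g)
            = g⁻¹ * x * g⁻¹⁻¹ := by
          group
        rwa [e] at this
      · intro hx
        have := h' _ hx
        have e : (g⁻¹ * v * g) * (g⁻¹ * x * g⁻¹⁻¹) * (g⁻¹ * v * g)⁻¹
            = g⁻¹ * (v * x * v⁻¹) * g⁻¹⁻¹ := by
          group
        rwa [e] at this
    rw [h0, Set.mem_singleton_iff] at hv3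
    apply hv1
    rw [hv3, map_one]
  · intro h0
    have hu2 : u ∈ relNorm (V.comap φ) (conjBy (V.comap φ) g⁻¹) := by
      rw [h0]; exact hu
    apply huw
    rw [e3]
    have : g * w * g⁻¹ ∈ conjBy (conjBy (V.comap φ) g⁻¹) u := by
      rw [hu2.2, mem_conjBy]
      have : g⁻¹ * (g * w * g⁻¹) * g⁻¹⁻¹ = w := by group
      rw [this]; exact hw
    rw [mem_conjBy, mem_conjBy, inv_inv] at this
    exact this

theorem condC_comap {G H : Type*} [Group G] [Group H] (φ : G →* H)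
    (V : Subgroup H) (h : Rel φ.range V)
    (hC : RelC φ.range V) (hφ : Function.Injective φ) : CondC (V.comap φ) := by
  have e : ∀ g y : G, φ g * φ y * (φ g)⁻¹ = φ (g * y * g⁻¹) := by intro g y; simp
  intro g hc x hx y hy hord
  rw [mem_conjBy] at hy
  have hc' : ∀ a ∈ V, ∀ b ∈ V, a * (φ g⁻¹ * b * (φ g⁻¹)⁻¹) = (φ g⁻¹ * b * (φ g⁻¹)⁻¹) * a := by
    intro a ha b hb
    obtain ⟨a, rfl⟩ := h.le ha
    obtain ⟨b, rfl⟩ := h.le hb
    rw [e, ← map_mul, ← map_mul]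
    congr 1
    apply hc a ha
    rw [mem_conjBy]
    have : g * (g⁻¹ * b * g⁻¹⁻¹) * g⁻¹ = b := by group
    rw [this]; exact hb
  have := hC (φ g⁻¹) ⟨g⁻¹, rfl⟩ hc' (φ x) hx (φ (g * y * g⁻¹)) hy
  have e5 : g⁻¹ * (g * y * g⁻¹) * g⁻¹⁻¹ = y := by group
  rw [e, ← map_mul, e5] at this
  obtain ⟨_, ⟨k, rfl⟩, hk⟩ := this (by
    intro h0
    have : x * y = 1 := hφ (by rw [h0, map_one])
    rw [this, orderOf_one] at hord
    norm_num at hord)
  rw [e] at hk
  exact ⟨_, hk, isConj_iff.2 ⟨k, rfl⟩⟩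

theorem elem_comap {G H : Type*} [Group G] [Group H] (φ : G →* H) {K : Subgroup H}
    (hφ : Function.Injective φ) (V : Subgroup H) (h : Rel K V) : ElemAb2 (V.comap φ) := by
  refine ⟨?_, ?_⟩
  · intro x hx
    apply hφ
    rw [map_mul, h.sq _ hx, map_one]
  · intro x hx y hy
    apply hφ
    rw [map_mul, map_mul, h.comm _ hx _ hy]

theorem hasNonRoot_of {G H : Type*} [Group G] [Group H] [Finite H] (φ : G →* H)
    (hφ : Function.Injective φ) (V : Subgroup H) (h : Rel φ.range V)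
    (hn : RelNR φ.range V) (hC : RelC φ.range V) : HasNonRoot G :=
  ⟨V.comap φ, elem_comap φ hφ V h, isTI_comap φ hφ V h, nonRoot_comap φ hφ V h hn,
    condC_comap φ V h hC hφ⟩

end basic

end NRT
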