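import Pool.Agent.Helper37.NRT.Cube

/-!
# MP_b5afc9_al: existence
-/

namespace NRT

open Equiv Equiv.Perm

/-! ### the cube type -/

/-- extension of a permutation by a fixed point -/
def oc {α : Type*} : Perm α →* Perm (Option α) where
  toFun := fun e => e.optionCongr
  map_one' := Equiv.optionCongr_one
  map_mul' := by
    intro x y
    apply Equiv.ext
    intro i
    cases i <;> rfl

theorem oc_some {α : Type*} (e : Perm α) (x : α) : oc e (some x) = some (e x) := rfl

theorem oc_none {α : Type*} (e : Perm α) : oc e none = none := rfl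

theorem oc_inj {α : Type*} : Function.Injective (oc : Perm α →* Perm (Option α)) :=
  Equiv.optionCongr_injective

theorem oc_sign {α : Type*} [Fintype α] [DecidableEq α] (e : Perm α) : sign (oc e) = sign e :=
  Equiv.optionCongr_sign e

theorem exists_oc {α : Type*} [DecidableEq α] (g : Perm (Option α)) (h : g none = none) :
    ∃ g', g = oc g' := by
  refine ⟨removeNone g, ?_⟩
  have := map_equiv_removeNone g
  rw [h, swap_self] at this
  change g = (removeNone g).optionCongr
  rw [this]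
  rfl

theorem tr_move {u : Cu} (hu : u ≠ 0) (x : Cu) : tr u x ≠ x := by
  rw [tr_apply]
  intro h
  exact hu (by simpa using h)

theorem tr_ne_one {u : Cu} (h : tr u ≠ 1) : u ≠ 0 := by
  rintro rfl
  exact h tr_zero

/-- the cube type: all parts at once, for any group of even permutations of the nine points
containing the needed elements -/
theorem cube_good (K : Subgroup (Perm (Option Cu))) (hK : K ≤ alternatingGroup (Option Cu))
    (hV : Tr.map oc ≤ K) (hg : oc g3 ∈ K) :
    Rel K (Tr.map oc) ∧ RelNR K (Tr.map oc) ∧ RelC K (Tr.map oc) := by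
  have hfix : ∀ g : Perm (Option Cu), ∀ v ∈ Tr.map oc, v ≠ 1 →
      (∀ x, v x = x ↔ x = none) := by
    rintro g _ ⟨_, ⟨u, rfl⟩, rfl⟩ hv1 x
    have hu : u ≠ 0 := by
      rintro rfl
      apply hv1
      rw [tr_zero, map_one]
    cases x with
    | none => simp [oc_none]
    | some x =>
      rw [oc_some]
      constructor
      · intro h
        exact absurd (Option.some.inj h) (tr_move hu x)
      · intro h
        exact absurd h (by simp)
  refine ⟨⟨hV, ?_, ?_, ?_⟩, ?_, ?_⟩
  · rintro _ ⟨_, ⟨u, rfl⟩, rfl⟩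
    rw [← map_mul, tr_mul, cu_add_self, tr_zero, map_one]
  · rintro _ ⟨_, ⟨u, rfl⟩, rfl⟩ _ ⟨_, ⟨w, rfl⟩, rfl⟩
    rw [← map_mul, ← map_mul, tr_mul, tr_mul, add_comm]
  · intro g hgK v hv hv1 hgv x hx
    have hgn : g none = none := by
      have h1 : (g * v * g⁻¹) (g none) = g none := by
        simp only [Perm.mul_apply]
        rw [show g⁻¹ (g none) = none from by
          rw [← Perm.mul_apply, inv_mul_cancel, Perm.one_apply], (hfix 1 v hv hv1 none).2 rfl]
      refine (hfix 1 _ hgv ?_ _).1 h1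
      intro h0
      apply hv1
      calc v = g⁻¹ * (g * v * g⁻¹) * g := by group
        _ = 1 := by rw [h0]; group
    obtain ⟨g', rfl⟩ := exists_oc g hgn
    obtain ⟨_, ⟨u, rfl⟩, rfl⟩ := hv
    obtain ⟨_, ⟨w, rfl⟩, rfl⟩ := hx
    obtain ⟨_, ⟨u', rfl⟩, hu'⟩ := hgv
    have hs : sign g' = 1 := by
      rw [← oc_sign]
      exact mem_alternatingGroup.1 (hK hgK)
    have e : ∀ t : Perm Cu, oc g' * oc t * (oc g')⁻¹ = oc (g' * t * g'⁻¹) := by intro t; simp
    rw [e] at hu' ⊢
    have hu1 := oc_inj hu'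
    have hu0 : u ≠ 0 := by
      rintro rfl
      apply hv1
      rw [tr_zero, map_one]
    have hu0' : u' ≠ 0 := by
      rintro rfl
      apply hu0
      apply tr_inj
      rw [tr_zero] at hu1 ⊢
      calc tr u = g'⁻¹ * (g' * tr u * g'⁻¹) * g' := by group
        _ = 1 := by rw [← hu1]; group
    exact ⟨_, tr_ti g' hs hu0 hu0' hu1.symm w, rfl⟩
  · have e3 : ∀ a b : Perm Cu, (oc g3)⁻¹ * (oc a * (oc g3 * oc b * (oc g3)⁻¹) * (oc a)⁻¹) * oc g3
          = oc (g3⁻¹ * (a * (g3 * b * g3⁻¹) * a⁻¹) * g3) := by intro a b; simp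
    refine ⟨oc g3, hg, ⟨oc (tr ((0, 0), 1)), ⟨_, ⟨_, rfl⟩, rfl⟩, ?_, ?_⟩, oc (tr ((1, 0), 0)),
      ⟨_, ⟨_, rfl⟩, rfl⟩, ?_⟩
    · intro h
      have h1 : tr ((0, 0), 1) = 1 := oc_inj (h.trans (map_one oc).symm)
      exact tr_ne_one (u := ((0, 0), 1)) (by
        intro _
        rw [← tr_zero] at h1
        exact absurd (tr_inj h1) (by decide)) (by
        rw [← tr_zero] at h1
        exact tr_inj h1)
    · rintro _ ⟨_, ⟨w, rfl⟩, rfl⟩
      rw [e3]
      obtain ⟨w', hw'⟩ := g3_norm w
      exact ⟨_, ⟨w', hw'⟩, rfl⟩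
    · obtain ⟨w, hw⟩ := g3_notnorm
      refine ⟨oc (tr w), ⟨_, ⟨w, rfl⟩, rfl⟩, ?_⟩
      rw [e3]
      rintro ⟨_, ⟨w', rfl⟩, h⟩
      exact hw w' (oc_inj h).symm
  · intro g hgK hc x hx y hy _
    have hv0 : oc (tr e0) ∈ Tr.map oc := ⟨_, ⟨e0, rfl⟩, rfl⟩
    have hv1 : oc (tr e0) ≠ 1 := by
      intro h
      have h1 : tr e0 = 1 := oc_inj (h.trans (map_one oc).symm)
      rw [← tr_zero] at h1
      exact absurd (tr_inj h1) (by decide)
    have hgn : g none = none := by
      -- the element `g v g⁻¹` fixes exactly `g none`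
      have h1 := congrArg (fun f : Perm (Option Cu) => f (g none)) (hc _ hv0 _ hv0)
      simp only [Perm.mul_apply] at h1
      rw [show g⁻¹ (g none) = none from by
          rw [← Perm.mul_apply, inv_mul_cancel, Perm.one_apply], oc_none] at h1
      -- `v (g none) = g v g⁻¹ (v (g none))`
      have h2 : oc (tr e0) (g⁻¹ (oc (tr e0) (g none))) = g⁻¹ (oc (tr e0) (g none)) := by
        apply g.injective
        rw [← h1, ← Perm.mul_apply g, mul_inv_cancel, Perm.one_apply]
      have h3 := (hfix 1 _ hv0 hv1 _).1 h2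
      have h4 : oc (tr e0) (g none) = g none := by
        exact Perm.inv_eq_iff_eq.1 h3
      exact (hfix 1 _ hv0 hv1 _).1 h4
    obtain ⟨g', rfl⟩ := exists_oc g hgn
    obtain ⟨_, ⟨u, rfl⟩, rfl⟩ := hx
    obtain ⟨_, ⟨w, rfl⟩, rfl⟩ := hy
    have e : ∀ t : Perm Cu, oc g' * oc t * (oc g')⁻¹ = oc (g' * t * g'⁻¹) := by intro t; simp
    have h5 : g' * tr w * g'⁻¹ ∈ Tr := by
      apply tr_cent
      intro t
      have := hc (oc (tr t)) ⟨_, ⟨t, rfl⟩, rfl⟩ (oc (tr w)) ⟨_, ⟨w, rfl⟩, rfl⟩
      rw [e, ← map_mul, ← map_mul] at this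
      exact (oc_inj this).symm
    refine ⟨1, K.one_mem, ?_⟩
    rw [e, ← map_mul]
    have e1 : (1 : Perm (Option Cu)) * oc (tr u * (g' * tr w * g'⁻¹)) * 1⁻¹
        = oc (tr u * (g' * tr w * g'⁻¹)) := by group
    rw [e1]
    exact ⟨_, Tr.mul_mem ⟨u, rfl⟩ h5, rfl⟩

/-- existence for nine points -/
theorem exist_nine : HasNonRoot (alternatingGroup (Option Cu)) := by
  have hr : (alternatingGroup (Option Cu)).subtype.range = alternatingGroup (Option Cu) :=
    Subgroup.range_subtype _
  have h := cube_good (alternatingGroup (Option Cu)).subtype.range (by rw [hr]) (by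
    rw [hr]
    rintro _ ⟨_, ⟨u, rfl⟩, rfl⟩
    rw [mem_alternatingGroup, oc_sign, tr_sign]) (by
    rw [hr, mem_alternatingGroup, oc_sign, g3_sign])
  exact hasNonRoot_of _ Subtype.val_injective _ h.1 h.2.1 h.2.2

/-- existence for eight points -/
theorem exist_eight : HasNonRoot (alternatingGroup Cu) := by
  have hm : ∀ x : Perm Cu, sign x = 1 →
      oc x ∈ (oc.comp (alternatingGroup Cu).subtype).range := by
    intro x hx
    exact ⟨⟨x, mem_alternatingGroup.2 hx⟩, rfl⟩
  have h := cube_good (oc.comp (alternatingGroup Cu).subtype).range (by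
    rintro _ ⟨x, rfl⟩
    rw [mem_alternatingGroup]
    change sign (oc x.1) = 1
    rw [oc_sign]
    exact mem_alternatingGroup.1 x.2) (by
    rintro _ ⟨_, ⟨u, rfl⟩, rfl⟩
    exact hm _ (tr_sign u)) (hm _ g3_sign)
  exact hasNonRoot_of _ (oc_inj.comp Subtype.val_injective) _ h.1 h.2.1 h.2.2

/-- transport along an isomorphism of finite groups -/
theorem HasNonRoot.transport {G H : Type*} [Group G] [Group H] [Finite G] (e : G ≃* H)
    (h : HasNonRoot G) : HasNonRoot H := by
  obtain ⟨V, h1, h2, h3, h4⟩ := h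
  have hinj : Function.Injective (MonoidHom.id G) := fun x y h => h
  have R := rel_of _ hinj V h1 h2
  have hnr := relNR_of _ hinj V h3
  have hC := relC_of _ hinj V h1 h4
  have hr : (MonoidHom.id G).range = e.symm.toMonoidHom.range := by
    rw [MonoidHom.range_eq_top.2 (fun x => ⟨x, rfl⟩), MonoidHom.range_eq_top.2 e.symm.surjective]
  rw [hr] at R hnr hC
  exact hasNonRoot_of e.symm.toMonoidHom e.symm.injective _ R hnr hC

end NRT
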