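import Pool.Agent.Helper37.NRT.Exist

/-!
# MP_b5afc9_al: Klein four-groups on four points, final theorems
-/

namespace NRT

open Equiv Equiv.Perm

variable {α : Type*} [Fintype α] [DecidableEq α]

/-- data of a Klein four-group acting regularly on `S` and trivially outside -/
structure Four (V : Subgroup (Perm α)) (S : Finset α) : Prop where
  alt : V ≤ alternatingGroup α
  sq : ∀ x ∈ V, x * x = 1
  comm : ∀ x ∈ V, ∀ y ∈ V, x * y = y * x
  big : Big V
  card : S.card = 4
  supp : ∀ x ∈ V, x ≠ 1 → x.support = S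

theorem Four.rel0 {V : Subgroup (Perm α)} {S : Finset α} (F : Four V S) : Rel V V :=
  ⟨le_rfl, F.sq, F.comm, fun _ hg _ _ _ _ _ hx => V.mul_mem (V.mul_mem hg hx) (V.inv_mem hg)⟩

theorem Four.all {V : Subgroup (Perm α)} {S : Finset α} (F : Four V S) {z : Perm α}
    (hz : z * z = 1) (hzS : z.support = S) : z ∈ V :=
  fourType_all F.rel0 F.big F.card F.supp hz hzS

theorem Four.map {V : Subgroup (Perm α)} {S : Finset α} (F : Four V S) (h y : Perm α) (hy : y ∈ V)
    (hy1 : y ≠ 1) : (h * y * h⁻¹).support = S.map h.toEmbedding := by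
  rw [Perm.support_conj, F.supp y hy hy1]

theorem Four.cj {V : Subgroup (Perm α)} {S : Finset α} (F : Four V S) (h : Perm α)
    (hh : S.map h.toEmbedding = S) : ∀ y ∈ V, h * y * h⁻¹ ∈ V := by
  intro y hy
  by_cases hy1 : y = 1
  · rw [hy1]; simp [V.one_mem]
  · apply F.all
    · have : h * y * h⁻¹ * (h * y * h⁻¹) = h * (y * y) * h⁻¹ := by group
      rw [this, F.sq y hy]; group
    · rw [F.map h y hy hy1, hh]

/-- the four type is a TI-subgroup -/
theorem Four.rel {V : Subgroup (Perm α)} {S : Finset α} (F : Four V S) {K : Subgroup (Perm α)}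
    (hK : alternatingGroup α ≤ K) : Rel K V := by
  refine ⟨F.alt.trans hK, F.sq, F.comm, ?_⟩
  intro g _ v hv hv1 hgv x hx
  apply F.cj g _ x hx
  rw [← F.map g v hv hv1]
  apply F.supp _ hgv
  intro h0
  apply hv1
  calc v = g⁻¹ * (g * v * g⁻¹) * g := by group
    _ = 1 := by rw [h0]; group

/-- the four type is of non-root type in degree at least six -/
theorem Four.nr {V : Subgroup (Perm α)} {S : Finset α} (F : Four V S) {K : Subgroup (Perm α)}
    (hK : alternatingGroup α ≤ K) (hn : 6 ≤ Fintype.card α) : RelNR K V := by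
  have R0 := F.rel0
  obtain ⟨v, hv, hv1⟩ := F.big.exists_one
  obtain ⟨x, hx, hx1, hxv⟩ := F.big v hv
  have hvx := R0.mul_ne hv hxv
  obtain ⟨a, ha⟩ := exists_moved hv1
  have haS : a ∈ S := by rw [← F.supp v hv hv1]; exact Perm.mem_support.2 ha
  have hmem : ∀ u ∈ V, ∀ i, i ∈ S → u i ∈ S := by
    intro u hu i hi
    by_cases hu1 : u = 1
    · rw [hu1]; exact hi
    · rw [← F.supp u hu hu1, Perm.apply_mem_support, F.supp u hu hu1]; exact hi
  have hmv : ∀ u ∈ V, u ≠ 1 → ∀ i ∈ S, u i ≠ i := by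
    intro u hu hu1 i hi
    rw [← Perm.mem_support, F.supp u hu hu1]; exact hi
  have hfx : ∀ u ∈ V, ∀ i, i ∉ S → u i = i := by
    intro u hu i hi
    by_cases hu1 : u = 1
    · rw [hu1]; rfl
    · rw [← F.supp u hu hu1, Perm.notMem_support] at hi; exact hi
  have e1 : x a ≠ a := hmv x hx hx1 a haS
  have e2 : v (x a) ≠ a := hmv (v * x) (V.mul_mem hv hx) hvx a haS
  have e3 : v (x a) ≠ x a := hmv v hv hv1 (x a) (hmem x hx a haS)
  have e4 : x a ≠ v a := by
    intro h0; apply e2; rw [h0, R0.app_sq hv]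
  have e5 : v (x a) ≠ v a := fun h0 => e1 (v.injective h0)
  have hSeq : S = {a, v a, x a, v (x a)} := by
    symm
    apply Finset.eq_of_subset_of_card_le
    · intro i hi
      simp only [Finset.mem_insert, Finset.mem_singleton] at hi
      rcases hi with rfl | rfl | rfl | rfl
      · exact haS
      · exact hmem v hv _ haS
      · exact hmem x hx _ haS
      · exact hmem v hv _ (hmem x hx _ haS)
    · rw [F.card, Finset.card_insert_of_notMem, Finset.card_insert_of_notMem,
        Finset.card_insert_of_notMem, Finset.card_singleton]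
      · simpa using e3.symm
      · simp only [Finset.mem_insert, Finset.mem_singleton, not_or]
        exact ⟨e4.symm, e5.symm⟩
      · simp only [Finset.mem_insert, Finset.mem_singleton, not_or]
        exact ⟨ha.symm, e1.symm, e2.symm⟩
  obtain ⟨p, hp, q, hq, hpq⟩ := Finset.one_lt_card.1
    (by rw [Finset.card_compl, F.card]; omega : 1 < (Sᶜ).card)
  rw [Finset.mem_compl] at hp hq
  have hne : ∀ i ∈ S, i ≠ p ∧ i ≠ q := by
    intro i hi
    exact ⟨by rintro rfl; exact hp hi, by rintro rfl; exact hq hi⟩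
  have hvaS := hmem v hv _ haS
  have hxaS := hmem x hx _ haS
  have hvxaS := hmem v hv _ hxaS
  obtain ⟨g, hg⟩ : ∃ g : Perm α, g = swap (x a) p * swap (v (x a)) q := ⟨_, rfl⟩
  have hgK : g ∈ K := hK (by rw [hg]; exact even2 (hne _ hxaS).1 (hne _ hvxaS).2)
  have g1 : g a = a := by
    rw [hg, Perm.mul_apply, swap_apply_of_ne_of_ne e2.symm (hne _ haS).2,
      swap_apply_of_ne_of_ne e1.symm (hne _ haS).1]
  have g2 : g (v a) = v a := by
    rw [hg, Perm.mul_apply, swap_apply_of_ne_of_ne e5.symm (hne _ hvaS).2,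
      swap_apply_of_ne_of_ne e4.symm (hne _ hvaS).1]
  have g3 : g (x a) = p := by
    rw [hg, Perm.mul_apply, swap_apply_of_ne_of_ne e3.symm (hne _ hxaS).2, swap_apply_left]
  have g4 : g (v (x a)) = q := by
    rw [hg, Perm.mul_apply, swap_apply_left, swap_apply_of_ne_of_ne (Ne.symm (hne _ hxaS).2)
      (Ne.symm hpq)]
  have hgS : S.map g.toEmbedding = {a, v a, p, q} := by
    conv_lhs => rw [hSeq]
    simp only [Finset.map_insert, Finset.map_singleton, Equiv.coe_toEmbedding, g1, g2, g3, g4]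
  have hvgS : (S.map g.toEmbedding).map v.toEmbedding = S.map g.toEmbedding := by
    rw [hgS]
    simp only [Finset.map_insert, Finset.map_singleton, Equiv.coe_toEmbedding, R0.app_sq hv,
      hfx v hv p hp, hfx v hv q hq]
    rw [Finset.insert_comm]
  refine ⟨g, hgK, ⟨v, hv, hv1, ?_⟩, x, hx, v, hv, ?_⟩
  · intro w hw
    by_cases hw1 : w = 1
    · rw [hw1]; simp [V.one_mem]
    apply F.all
    · have : g⁻¹ * (v * (g * w * g⁻¹) * v⁻¹) * g * (g⁻¹ * (v * (g * w * g⁻¹) * v⁻¹) * g)
          = g⁻¹ * v * g * (w * w) * (g⁻¹ * v * g)⁻¹ := by group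
      rw [this, F.sq w hw]; group
    · have : g⁻¹ * (v * (g * w * g⁻¹) * v⁻¹) * g
          = g⁻¹ * (v * (g * w * g⁻¹) * v⁻¹) * g⁻¹⁻¹ := by group
      rw [this, Perm.support_conj, Perm.support_conj, F.map g w hw hw1, hvgS, Finset.map_map]
      ext i
      simp
  · intro hcon
    have h1 : g⁻¹ * (x * (g * v * g⁻¹) * x⁻¹) * g ≠ 1 := by
      intro h0
      apply hv1
      calc v = (x * g)⁻¹ * g * (g⁻¹ * (x * (g * v * g⁻¹) * x⁻¹) * g) * g⁻¹ * (x * g) := by group
        _ = 1 := by rw [h0]; group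
    have h2 := F.map g _ hcon h1
    have h4 : g * (g⁻¹ * (x * (g * v * g⁻¹) * x⁻¹) * g) * g⁻¹ = x * (g * v * g⁻¹) * x⁻¹ := by
      group
    rw [h4, Perm.support_conj, F.map g v hv hv1] at h2
    have h5 : x a ∈ (S.map g.toEmbedding).map x.toEmbedding := by
      rw [Finset.mem_map]
      exact ⟨a, by rw [hgS]; simp, rfl⟩
    rw [h2, hgS] at h5
    simp only [Finset.mem_insert, Finset.mem_singleton] at h5
    rcases h5 with h | h | h | h
    · exact e1 h
    · exact e4 h
    · exact (hne _ hxaS).1 h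
    · exact (hne _ hxaS).2 h

/-- condition (C) for the four type in degree at most seven -/
theorem Four.relC {V : Subgroup (Perm α)} {S : Finset α} (F : Four V S) {K : Subgroup (Perm α)}
    (hn : Fintype.card α ≤ 7) : RelC K V := by
  have R0 := F.rel0
  intro g _ hc x hx y hy _
  obtain ⟨v, hv, hv1⟩ := F.big.exists_one
  obtain ⟨u, hu, hu1, huv⟩ := F.big v hv
  have hvu := R0.mul_ne hv huv
  have hT : (S.map g.toEmbedding).card = 4 := by rw [Finset.card_map, F.card]
  obtain ⟨i, hi⟩ : (S ∩ S.map g.toEmbedding).Nonempty := by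
    rw [Finset.nonempty_iff_ne_empty]
    intro h0
    have h1 : Disjoint S (S.map g.toEmbedding) := Finset.disjoint_iff_inter_eq_empty.2 h0
    have h2 := Finset.card_le_univ (S ∪ S.map g.toEmbedding)
    rw [Finset.card_union_of_disjoint h1, F.card, hT] at h2
    omega
  have hst : ∀ t ∈ V, ∀ j ∈ S ∩ S.map g.toEmbedding, t j ∈ S ∩ S.map g.toEmbedding := by
    intro t ht j hj
    rw [Finset.mem_inter] at hj ⊢
    constructor
    · by_cases ht1 : t = 1
      · rw [ht1]; exact hj.1
      · rw [← F.supp t ht ht1, Perm.apply_mem_support, F.supp t ht ht1]; exact hj.1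
    · rw [← F.map g v hv hv1, Perm.mem_support]
      have h1 := congrArg (fun f : Perm α => f j) (hc t ht v hv)
      change t ((g * v * g⁻¹) j) = (g * v * g⁻¹) (t j) at h1
      rw [← h1]
      intro h2
      have h3 := t.injective h2
      have h4 := hj.2
      rw [← F.map g v hv hv1, Perm.mem_support] at h4
      exact h4 h3
  have hiS : i ∈ S := (Finset.mem_inter.1 hi).1
  have m1 : v i ≠ i := by rw [← Perm.mem_support, F.supp v hv hv1]; exact hiS
  have m2 : u i ≠ i := by rw [← Perm.mem_support, F.supp u hu hu1]; exact hiS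
  have m3 : (v * u) i ≠ i := by
    rw [← Perm.mem_support, F.supp _ (V.mul_mem hv hu) hvu]; exact hiS
  rw [Perm.mul_apply] at m3
  have m4 : u i ≠ v i := by
    intro h0; apply m3; rw [h0, R0.app_sq hv]
  have m5 : v (u i) ≠ v i := fun h0 => m2 (v.injective h0)
  have huiS : u i ∈ S := by rw [← F.supp u hu hu1, Perm.apply_mem_support, F.supp u hu hu1]; exact hiS
  have m6 : v (u i) ≠ u i := by rw [← Perm.mem_support, F.supp v hv hv1]; exact huiS
  have hsub : ({i, v i, u i, v (u i)} : Finset α) ⊆ S ∩ S.map g.toEmbedding := by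
    intro j hj
    simp only [Finset.mem_insert, Finset.mem_singleton] at hj
    rcases hj with rfl | rfl | rfl | rfl
    · exact hi
    · exact hst v hv _ hi
    · exact hst u hu _ hi
    · exact hst v hv _ (hst u hu _ hi)
  have hc4 : 4 ≤ (S ∩ S.map g.toEmbedding).card := by
    refine le_trans ?_ (Finset.card_le_card hsub)
    rw [Finset.card_insert_of_notMem, Finset.card_insert_of_notMem,
      Finset.card_insert_of_notMem, Finset.card_singleton]
    · simpa using m6.symm
    · simp only [Finset.mem_insert, Finset.mem_singleton, not_or]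
      exact ⟨m4.symm, m5.symm⟩
    · simp only [Finset.mem_insert, Finset.mem_singleton, not_or]
      exact ⟨m1.symm, m2.symm, m3.symm⟩
  have hgS : S.map g.toEmbedding = S := by
    have h1 : S ∩ S.map g.toEmbedding = S :=
      Finset.eq_of_subset_of_card_le Finset.inter_subset_left (by rw [F.card]; exact hc4)
    have h2 : S ∩ S.map g.toEmbedding = S.map g.toEmbedding :=
      Finset.eq_of_subset_of_card_le Finset.inter_subset_right (by rw [hT]; exact hc4)
    rw [← h2, h1]
  refine ⟨1, K.one_mem, ?_⟩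
  have e1 : 1 * (x * (g * y * g⁻¹)) * 1⁻¹ = x * (g * y * g⁻¹) := by group
  rw [e1]
  exact V.mul_mem hx (F.cj g hgS y hy)

/-- a subgroup from a finite set closed under products and inverses -/
def ofList {G : Type*} [Group G] (L : Finset G) (h1 : (1 : G) ∈ L)
    (hm : ∀ x ∈ L, ∀ y ∈ L, x * y ∈ L) (hi : ∀ x ∈ L, x⁻¹ ∈ L) : Subgroup G where
  carrier := {x | x ∈ L}
  one_mem' := h1
  mul_mem' := fun {x y} hx hy => hm x hx y hy
  inv_mem' := fun {x} hx => hi x hx

def Ln : Finset (Perm (Fin 4)) :=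
  {1, swap 0 1 * swap 2 3, swap 0 2 * swap 1 3, swap 0 3 * swap 1 2}

def L4 : Finset (Perm (Fin 4)) := {1, swap 0 1, swap 2 3, swap 0 1 * swap 2 3}

def Vn : Subgroup (Perm (Fin 4)) := ofList Ln (by decide +kernel) (by decide +kernel)
  (by decide +kernel)

def V4 : Subgroup (Perm (Fin 4)) := ofList L4 (by decide +kernel) (by decide +kernel)
  (by decide +kernel)

/-- every set of four points carries a Klein four-group -/
theorem exists_four (S : Finset α) (hS : S.card = 4) : ∃ V : Subgroup (Perm α), Four V S := by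
  have hs : ∀ x ∈ Ln, sign x = 1 := by decide +kernel
  have hsq : ∀ x ∈ Ln, x * x = 1 := by decide +kernel
  have hcm : ∀ x ∈ Ln, ∀ y ∈ Ln, x * y = y * x := by decide +kernel
  have hsu : ∀ x ∈ Ln, x ≠ 1 → x.support = Finset.univ := by decide +kernel
  have hbg : ∀ v ∈ Ln, ∃ x ∈ Ln, x ≠ 1 ∧ x ≠ v := by decide +kernel
  obtain ⟨f⟩ : Nonempty (Fin 4 ≃ {i // i ∈ S}) := ⟨(S.equivFinOfCardEq hS).symm⟩
  have hh : ∀ x, extendDomainHom f x = x.extendDomain f := fun x => rfl
  have hinj : Function.Injective (extendDomainHom f) := extendDomainHom_injective f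
  have hmap : S = (Finset.univ : Finset (Fin 4)).map f.asEmbedding := by
    symm
    apply Finset.eq_of_subset_of_card_le
    · intro i hi
      rw [Finset.mem_map] at hi
      obtain ⟨j, -, rfl⟩ := hi
      exact (f j).2
    · rw [Finset.card_map, hS]; simp
  refine ⟨Vn.map (extendDomainHom f), ?_, ?_, ?_, ?_, hS, ?_⟩
  · rintro _ ⟨x, hx, rfl⟩
    rw [mem_alternatingGroup, hh, sign_extendDomain]
    exact hs x hx
  · rintro _ ⟨x, hx, rfl⟩
    rw [← map_mul, hsq x hx, map_one]
  · rintro _ ⟨x, hx, rfl⟩ _ ⟨y, hy, rfl⟩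
    rw [← map_mul, ← map_mul, hcm x hx y hy]
  · rintro _ ⟨v, hv, rfl⟩
    obtain ⟨x, hx, hx1, hxv⟩ := hbg v hv
    refine ⟨_, ⟨x, hx, rfl⟩, ?_, fun h => hxv (hinj h)⟩
    intro h
    exact hx1 (hinj (h.trans (map_one _).symm))
  · rintro _ ⟨x, hx, rfl⟩ hx1
    rw [hh, support_extend_domain, hsu x hx (by
      rintro rfl
      exact hx1 (map_one _))]
    exact hmap.symm

theorem four_four : Rel ⊤ V4 ∧ RelNR ⊤ V4 ∧ RelC ⊤ V4 := by
  refine ⟨⟨le_top, ?_, ?_, ?_⟩, ?_, ?_⟩
  · have : ∀ x ∈ L4, x * x = 1 := by decide +kernel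
    exact this
  · have : ∀ x ∈ L4, ∀ y ∈ L4, x * y = y * x := by decide +kernel
    exact this
  · have : ∀ g : Perm (Fin 4), ∀ v ∈ L4, v ≠ 1 → g * v * g⁻¹ ∈ L4 → ∀ x ∈ L4,
      g * x * g⁻¹ ∈ L4 := by decide +kernel
    exact fun g _ => this g
  · refine ⟨swap 1 2, Subgroup.mem_top _, ⟨swap 0 1 * swap 2 3, ?_, ?_,
      ?_⟩, swap 0 1, ?_, swap 0 1, ?_, ?_⟩
    · change _ ∈ L4; decide +kernel
    · decide +kernel
    · have : ∀ w ∈ L4, (swap 1 2)⁻¹ * (swap 0 1 * swap 2 3 * (swap 1 2 * w *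
        (swap 1 2)⁻¹) * (swap 0 1 * swap 2 3)⁻¹) * (swap 1 2) ∈ L4 := by
        decide +kernel
      exact this
    · change _ ∈ L4; decide +kernel
    · change _ ∈ L4; decide +kernel
    · change _ ∉ L4; decide +kernel
  · have : ∀ g : Perm (Fin 4), (∃ x ∈ L4, ∃ y ∈ L4, x * (g * y * g⁻¹) ≠ (g * y * g⁻¹) * x) ∨
      ∀ y ∈ L4, g * y * g⁻¹ ∈ L4 := by decide +kernel
    intro g _ hc x hx y hy _
    refine ⟨1, Subgroup.mem_top _, ?_⟩
    have e1 : 1 * (x * (g * y * g⁻¹)) * 1⁻¹ = x * (g * y * g⁻¹) := by group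
    rw [e1]
    rcases this g with ⟨a, ha, b, hb, hab⟩ | h
    · exact absurd (hc a ha b hb) hab
    · exact V4.mul_mem hx (h y hy)

theorem sym_of_rel {n : ℕ} {V : Subgroup (Perm (Fin n))}
    (h : Rel ⊤ V ∧ RelNR ⊤ V ∧ RelC ⊤ V) : HasNonRoot (Perm (Fin n)) := by
  have hr : (MonoidHom.id (Perm (Fin n))).range = ⊤ :=
    MonoidHom.range_eq_top.2 fun x => ⟨x, rfl⟩
  rw [← hr] at h
  exact hasNonRoot_of _ (fun x y h => h) _ h.1 h.2.1 h.2.2

theorem alt_of_rel {n : ℕ} {V : Subgroup (Perm (Fin n))}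
    (h : Rel (alternatingGroup (Fin n)) V ∧ RelNR (alternatingGroup (Fin n)) V ∧
      RelC (alternatingGroup (Fin n)) V) : HasNonRoot (alternatingGroup (Fin n)) := by
  rw [← Subgroup.range_subtype (alternatingGroup (Fin n))] at h
  exact hasNonRoot_of _ Subtype.val_injective _ h.1 h.2.1 h.2.2

theorem exists_four_fin {n : ℕ} (hn : 4 ≤ n) :
    ∃ (V : Subgroup (Perm (Fin n))) (S : Finset (Fin n)), Four V S := by
  obtain ⟨S, -, hS⟩ := Finset.exists_subset_card_eq (s := (Finset.univ : Finset (Fin n)))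
    (n := 4) (by simpa using hn)
  obtain ⟨V, hV⟩ := exists_four S hS
  exact ⟨V, S, hV⟩

/-- Main theorem, symmetric groups. -/
theorem sym_iff (n : ℕ) : HasNonRoot (Perm (Fin n)) ↔ n = 4 ∨ n = 6 ∨ n = 7 := by
  constructor
  · exact sym_necessary
  · rintro (rfl | h)
    · exact sym_of_rel four_four
    · obtain ⟨V, S, F⟩ := exists_four_fin (n := n) (by omega)
      have hc : Fintype.card (Fin n) = n := Fintype.card_fin n
      exact sym_of_rel ⟨F.rel le_top, F.nr le_top (by omega), F.relC (by omega)⟩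

/-- Main theorem, alternating groups. -/
theorem alt_iff (n : ℕ) : HasNonRoot (alternatingGroup (Fin n)) ↔ 6 ≤ n ∧ n ≤ 9 := by
  constructor
  · exact alt_necessary
  · rintro ⟨h1, h2⟩
    have hc : Fintype.card (Fin n) = n := Fintype.card_fin n
    obtain h | rfl | rfl : n ≤ 7 ∨ n = 8 ∨ n = 9 := by omega
    · obtain ⟨V, S, F⟩ := exists_four_fin (n := n) (by omega)
      exact alt_of_rel ⟨F.rel le_rfl, F.nr le_rfl (by omega), F.relC (by omega)⟩
    · have e : Cu ≃ Fin 8 := Fintype.equivFinOfCardEq (by decide)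
      exact exist_eight.transport (Equiv.altCongrHom e)
    · have e : Option Cu ≃ Fin 9 := Fintype.equivFinOfCardEq (by decide)
      exact exist_nine.transport (Equiv.altCongrHom e)

end NRT
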