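import Pool.Agent.Helper37.NRT.Defs

/-!
# MP_b5afc9_al: commutator arguments in permutation groups containing the alternating group
-/

namespace NRT

open Equiv Equiv.Perm

variable {α : Type*} [Fintype α] [DecidableEq α]

/-- `V` has at least three elements; every member is avoided by a nontrivial one -/
def Big {H : Type*} [Group H] (V : Subgroup H) : Prop := ∀ v ∈ V, ∃ x ∈ V, x ≠ 1 ∧ x ≠ v

/-- all nontrivial elements have the same support, of size four -/
def FourType (V : Subgroup (Perm α)) : Prop :=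
  ∃ S : Finset α, S.card = 4 ∧ ∀ x ∈ V, x ≠ 1 → x.support = S

theorem Rel.cj {H : Type*} [Group H] {K V : Subgroup H} (R : Rel K V) {g v : H} (hg : g ∈ K)
    (hv : v ∈ V) (hv1 : v ≠ 1) (hc : g * v = v * g) : ∀ x ∈ V, g * x * g⁻¹ ∈ V := by
  apply R.ti g hg v hv hv1
  rw [hc]
  simpa using hv

theorem Rel.app_sq {K V : Subgroup (Perm α)} (R : Rel K V) {x : Perm α} (hx : x ∈ V) (i : α) :
    x (x i) = i := by
  have := congrArg (fun f : Perm α => f i) (R.sq x hx)
  simpa using this

theorem Rel.app_comm {K V : Subgroup (Perm α)} (R : Rel K V) {x y : Perm α} (hx : x ∈ V)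
    (hy : y ∈ V) (i : α) : x (y i) = y (x i) := by
  have := congrArg (fun f : Perm α => f i) (R.comm x hx y hy)
  simpa using this

theorem even2 {a b c d : α} (h1 : a ≠ b) (h2 : c ≠ d) :
    swap a b * swap c d ∈ alternatingGroup α := by
  rw [mem_alternatingGroup, Perm.sign_mul, sign_swap h1, sign_swap h2]
  rfl

theorem swap_comm_fix {v : Perm α} {a b : α} (ha : v a = a) (hb : v b = b) :
    swap a b * v = v * swap a b := by
  rw [mul_swap_eq_swap_mul, ha, hb]

theorem swap_comm_cyc {v : Perm α} {a : α} (ha : v (v a) = a) :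
    swap a (v a) * v = v * swap a (v a) := by
  rw [mul_swap_eq_swap_mul, ha, swap_comm]

section lemmas

variable {K V : Subgroup (Perm α)}

theorem lemA1 (hK : alternatingGroup α ≤ K) (R : Rel K V) {v x : Perm α} (hv : v ∈ V)
    (hv1 : v ≠ 1) (hx : x ∈ V) {a d : α} (ha : v a = a) (hd : v d = d) (hxa : x a ≠ a)
    (hxd : x d = d) : False := by
  have hda : d ≠ a := by rintro rfl; exact hxa hxd
  obtain ⟨b, hb⟩ : ∃ b, b = x a := ⟨_, rfl⟩
  have hxb : x b = a := by rw [hb]; exact R.app_sq hx a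
  have hvb : v b = b := by rw [hb, R.app_comm hv hx, ha]
  have hba : b ≠ a := by rw [hb]; exact hxa
  have hdb : d ≠ b := by rintro rfl; exact hda (hxd.symm.trans hxb)
  obtain ⟨g, hg⟩ : ∃ g : Perm α, g = swap a b * swap b d := ⟨_, rfl⟩
  have hgK : g ∈ K := hK (by rw [hg]; exact even2 hba.symm hdb.symm)
  have hgv : g * v = v * g := by
    rw [hg, mul_assoc, swap_comm_fix hvb hd, ← mul_assoc, swap_comm_fix ha hvb, mul_assoc]
  have hg1 : g a = b := by
    rw [hg, Perm.mul_apply, swap_apply_of_ne_of_ne hba.symm hda.symm, swap_apply_left]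
  have hg2 : g b = d := by
    rw [hg, Perm.mul_apply, swap_apply_left, swap_apply_of_ne_of_ne hda hdb]
  have hg3 : g d = a := by
    rw [hg, Perm.mul_apply, swap_apply_right, swap_apply_right]
  have hg1' : g⁻¹ b = a := by rw [Perm.inv_eq_iff_eq]; exact hg1.symm
  have hg3' : g⁻¹ a = d := by rw [Perm.inv_eq_iff_eq]; exact hg3.symm
  have hy := R.cj hgK hv hv1 hgv x hx
  have key := R.app_comm hx hy b
  simp only [Perm.mul_apply, hg1', ← hb, hg2, hxd, hxb, hg3', hg3] at key
  exact hda key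

theorem lemA2 (hK : alternatingGroup α ≤ K) (R : Rel K V) {v x : Perm α} (hv : v ∈ V)
    (hv1 : v ≠ 1) (hx : x ∈ V) {a d : α} (ha : v a = a) (hd : v d = d) (hxa : x a ≠ a)
    (hda : d ≠ a) (hdb : d ≠ x a) :
    (∃ z ∈ V, z ≠ 1 ∧ z a = d ∧ z.support ⊆ {a, x a, d, x d}) ∧
      ∀ e, v e = e → e ∈ ({a, x a, d, x d} : Finset α) := by
  obtain ⟨b, hb⟩ : ∃ b, b = x a := ⟨_, rfl⟩
  rw [← hb] at hdb
  have hxb : x b = a := by rw [hb]; exact R.app_sq hx a
  have hvb : v b = b := by rw [hb, R.app_comm hv hx, ha]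
  have hba : b ≠ a := by rw [hb]; exact hxa
  have hxd : x d ≠ d := fun h => lemA1 hK R hv hv1 hx ha hd hxa h
  obtain ⟨d', hd'⟩ : ∃ d', d' = x d := ⟨_, rfl⟩
  have hxd' : x d' = d := by rw [hd']; exact R.app_sq hx d
  have hd'a : d' ≠ a := by
    intro h; apply hdb; rw [hb, ← h, hxd']
  have hd'b : d' ≠ b := by
    intro h; apply hda; rw [← hxb, ← h, hxd']
  have hd'd : d' ≠ d := by rw [hd']; exact hxd
  obtain ⟨g, hg⟩ : ∃ g : Perm α, g = swap a b * swap b d := ⟨_, rfl⟩
  have hgK : g ∈ K := hK (by rw [hg]; exact even2 hba.symm hdb.symm)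
  have hgv : g * v = v * g := by
    rw [hg, mul_assoc, swap_comm_fix hvb hd, ← mul_assoc, swap_comm_fix ha hvb, mul_assoc]
  have hg1 : g a = b := by
    rw [hg, Perm.mul_apply, swap_apply_of_ne_of_ne hba.symm hda.symm, swap_apply_left]
  have hg2 : g b = d := by
    rw [hg, Perm.mul_apply, swap_apply_left, swap_apply_of_ne_of_ne hda hdb]
  have hg3 : g d = a := by
    rw [hg, Perm.mul_apply, swap_apply_right, swap_apply_right]
  have hg4 : ∀ e, e ≠ a → e ≠ b → e ≠ d → g e = e := by
    intro e h1 h2 h3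
    rw [hg, Perm.mul_apply, swap_apply_of_ne_of_ne h2 h3, swap_apply_of_ne_of_ne h1 h2]
  have hg1' : g⁻¹ b = a := by rw [Perm.inv_eq_iff_eq]; exact hg1.symm
  have hg3' : g⁻¹ a = d := by rw [Perm.inv_eq_iff_eq]; exact hg3.symm
  have hg4' : ∀ e, e ≠ a → e ≠ b → e ≠ d → g⁻¹ e = e := by
    intro e h1 h2 h3
    rw [Perm.inv_eq_iff_eq]; exact (hg4 e h1 h2 h3).symm
  have hy := R.cj hgK hv hv1 hgv x hx
  have hz := V.mul_mem hx hy
  obtain ⟨z, hzd⟩ : ∃ z, z = x * (g * x * g⁻¹) := ⟨_, rfl⟩
  rw [← hzd] at hz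
  have hza : z a = d := by
    rw [hzd]
    simp only [Perm.mul_apply, hg3']
    rw [← hd', hg4 d' hd'a hd'b hd'd, hxd']
  have hze : ∀ e, e ∉ ({a, b, d, d'} : Finset α) → z e = e := by
    intro e he
    simp only [Finset.mem_insert, Finset.mem_singleton, not_or] at he
    obtain ⟨h1, h2, h3, h4⟩ := he
    rw [hzd]
    simp only [Perm.mul_apply]
    rw [hg4' e h1 h2 h3, hg4 (x e) ?_ ?_ ?_, R.app_sq hx]
    · intro h; apply h2; rw [← R.app_sq hx e, h, hb]
    · intro h; apply h1; rw [← R.app_sq hx e, h, hxb]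
    · intro h; apply h4; rw [← R.app_sq hx e, h, hd']
  refine ⟨⟨z, hz, ?_, hza, ?_⟩, ?_⟩
  · rintro rfl
    exact hda hza.symm
  · rw [← hb, ← hd']
    intro e he
    by_contra hcon
    exact (Perm.mem_support.1 he) (hze e hcon)
  · intro e he
    rw [← hb, ← hd']
    by_contra hcon
    refine lemA1 hK R hv hv1 hz ha he ?_ (hze e hcon)
    rw [hza]; exact hda

theorem lemA3 (hK : alternatingGroup α ≤ K) (R : Rel K V) {v x : Perm α} (hv : v ∈ V)
    (hv1 : v ≠ 1) (hx : x ∈ V) {a : α} (ha : v a = a) (hxa : x a ≠ a) :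
    Fintype.card α ≤ v.support.card + 4 := by
  have h1 : (v.supportᶜ).card ≤ 4 := by
    by_cases h : ∃ d, v d = d ∧ d ≠ a ∧ d ≠ x a
    · obtain ⟨d, hd, hda, hdb⟩ := h
      have h2 := (lemA2 hK R hv hv1 hx ha hd hxa hda hdb).2
      refine le_trans (Finset.card_le_card (t := {a, x a, d, x d}) ?_) Finset.card_le_four
      intro e he
      apply h2
      simpa using he
    · refine le_trans (Finset.card_le_card (t := {a, x a}) ?_)
        (le_trans Finset.card_le_two (by norm_num))
      intro e he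
      have he' : v e = e := by simpa using he
      by_contra hcon
      simp only [Finset.mem_insert, Finset.mem_singleton, not_or] at hcon
      exact h ⟨e, he', hcon.1, hcon.2⟩
  rw [Finset.card_compl] at h1
  omega

/-- the condition for the transposition trick -/
def TCond (K : Subgroup (Perm α)) (v : Perm α) : Prop :=
  K = ⊤ ∨ ∃ p q, p ≠ q ∧ v p = p ∧ v q = q

theorem lemT0 (hK : alternatingGroup α ≤ K) (R : Rel K V) {v y : Perm α} (hv : v ∈ V)
    (hv1 : v ≠ 1) (hT : TCond K v) (hy : y ∈ V) {a : α} (ha : v a ≠ a) :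
    swap a (v a) * y * (swap a (v a))⁻¹ ∈ V := by
  rcases hT with rfl | ⟨p, q, hpq, hp, hq⟩
  · exact R.cj (Subgroup.mem_top _) hv hv1 (swap_comm_cyc (R.app_sq hv a)) y hy
  · obtain ⟨p, q, hpq, hp, hq, hs⟩ : ∃ p q, p ≠ q ∧ v p = p ∧ v q = q ∧
        swap p q * y = y * swap p q := by
      by_cases h1 : y p = p
      · by_cases h2 : y q = q
        · exact ⟨p, q, hpq, hp, hq, swap_comm_fix h1 h2⟩
        · exact ⟨q, y q, Ne.symm h2, hq, by rw [R.app_comm hv hy, hq],
            swap_comm_cyc (R.app_sq hy q)⟩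
      · exact ⟨p, y p, Ne.symm h1, hp, by rw [R.app_comm hv hy, hp],
          swap_comm_cyc (R.app_sq hy p)⟩
    have hgK : swap a (v a) * swap p q ∈ K := hK (even2 (Ne.symm ha) hpq)
    have hgv : (swap a (v a) * swap p q) * v = v * (swap a (v a) * swap p q) := by
      rw [mul_assoc, swap_comm_fix hp hq, ← mul_assoc, swap_comm_cyc (R.app_sq hv a), mul_assoc]
    have := R.cj hgK hv hv1 hgv y hy
    have e : swap a (v a) * swap p q * y * (swap a (v a) * swap p q)⁻¹
        = swap a (v a) * y * (swap a (v a))⁻¹ := by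
      rw [mul_assoc (swap a (v a)), hs, mul_inv_rev]
      group
    rwa [e] at this

theorem lemT (hK : alternatingGroup α ≤ K) (R : Rel K V) {v y : Perm α} (hv : v ∈ V)
    (hv1 : v ≠ 1) (hT : TCond K v) (hy : y ∈ V) {a : α} (ha : v a ≠ a) (h1 : y a ≠ a)
    (h2 : y a ≠ v a) :
    ∃ z ∈ V, z ≠ 1 ∧ z.support ⊆ {a, v a, y a, y (v a)} := by
  have h := lemT0 hK R hv hv1 hT hy ha
  have hz := V.mul_mem hy h
  refine ⟨_, hz, ?_, ?_⟩
  · intro h0
    have := congrArg (fun f : Perm α => f (y a)) h0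
    simp only [Perm.mul_apply, swap_inv, Perm.one_apply] at this
    rw [swap_apply_of_ne_of_ne h1 h2, R.app_sq hy, swap_apply_left] at this
    exact ha (y.injective this)
  · intro i hi
    by_contra hcon
    simp only [Finset.mem_insert, Finset.mem_singleton, not_or] at hcon
    obtain ⟨c1, c2, c3, c4⟩ := hcon
    apply Perm.mem_support.1 hi
    simp only [Perm.mul_apply, swap_inv]
    rw [swap_apply_of_ne_of_ne c1 c2, swap_apply_of_ne_of_ne, R.app_sq hy]
    · intro h; apply c3; rw [← h, R.app_sq hy]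
    · intro h; apply c4; rw [← h, R.app_sq hy]

theorem lemB (hK : alternatingGroup α ≤ K) (R : Rel K V) {v y : Perm α} (hv : v ∈ V)
    (hv1 : v ≠ 1) (hT : TCond K v) (hy : y ∈ V) (hy1 : y ≠ 1) (hyv : y ≠ v) :
    (∃ z ∈ V, z ≠ 1 ∧ z.support.card ≤ 4) ∨ (∃ z ∈ V, z ≠ 1 ∧ ∀ i, v i ≠ i → z i = i) := by
  by_cases h : ∃ a, v a ≠ a ∧ y a ≠ a ∧ y a ≠ v a
  · obtain ⟨a, ha, h1, h2⟩ := h
    obtain ⟨z, hz, hz1, hz2⟩ := lemT hK R hv hv1 hT hy ha h1 h2
    exact Or.inl ⟨z, hz, hz1, le_trans (Finset.card_le_card hz2) Finset.card_le_four⟩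
  have h' : ∀ a, v a ≠ a → y a = a ∨ y a = v a := by
    intro a ha
    by_contra hcon
    push Not at hcon
    exact h ⟨a, ha, hcon.1, hcon.2⟩
  by_cases hA : ∀ a, v a ≠ a → y a = a
  · exact Or.inr ⟨y, hy, hy1, hA⟩
  by_cases hB : ∀ a, v a ≠ a → y a = v a
  · refine Or.inr ⟨v * y, V.mul_mem hv hy, ?_, ?_⟩
    · intro h0
      apply hyv
      calc y = (v * v) * y := by rw [R.sq v hv, one_mul]
        _ = v * (v * y) := by rw [mul_assoc]
        _ = v := by rw [h0, mul_one]
    · intro a ha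
      rw [Perm.mul_apply, hB a ha, R.app_sq hv]
  push Not at hA hB
  obtain ⟨b, hvb, hb⟩ := hA
  obtain ⟨a, hva, ha⟩ := hB
  replace hb : y b = v b := (h' b hvb).resolve_left hb
  replace ha : y a = a := (h' a hva).resolve_right ha
  have hyva : y (v a) = v a := by rw [R.app_comm hy hv, ha]
  have hyvb : y (v b) = b := by rw [R.app_comm hy hv, hb, R.app_sq hv]
  have hab : a ≠ b := by
    rintro rfl
    exact hva (hb.symm.trans ha)
  have hbva : b ≠ v a := by
    intro h0
    apply hvb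
    rw [← hb]
    rw [h0]; exact hyva
  have hvab : v a ≠ v b := fun h0 => hab (v.injective h0)
  have havb : a ≠ v b := by
    intro h0; apply hbva; rw [h0, R.app_sq hv]
  obtain ⟨g, hg⟩ : ∃ g : Perm α, g = swap a b * swap (v a) (v b) := ⟨_, rfl⟩
  have hgK : g ∈ K := hK (by rw [hg]; exact even2 hab hvab)
  have hga : g a = b := by
    rw [hg, Perm.mul_apply, swap_apply_of_ne_of_ne (Ne.symm hva) havb, swap_apply_left]
  have hgb : g b = a := by
    rw [hg, Perm.mul_apply, swap_apply_of_ne_of_ne hbva (Ne.symm hvb), swap_apply_right]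
  have hgva : g (v a) = v b := by
    rw [hg, Perm.mul_apply, swap_apply_left, swap_apply_of_ne_of_ne havb.symm hvb]
  have hgvb : g (v b) = v a := by
    rw [hg, Perm.mul_apply, swap_apply_right, swap_apply_of_ne_of_ne hva hbva.symm]
  have hgi : ∀ i, i ≠ a → i ≠ b → i ≠ v a → i ≠ v b → g i = i := by
    intro i h1 h2 h3 h4
    rw [hg, Perm.mul_apply, swap_apply_of_ne_of_ne h3 h4, swap_apply_of_ne_of_ne h1 h2]
  have hgb' : g⁻¹ a = b := by rw [Perm.inv_eq_iff_eq]; exact hgb.symm
  have hgi' : ∀ i, i ≠ a → i ≠ b → i ≠ v a → i ≠ v b → g⁻¹ i = i := by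
    intro i h1 h2 h3 h4
    rw [Perm.inv_eq_iff_eq]; exact (hgi i h1 h2 h3 h4).symm
  have hgv : g * v = v * g := by
    ext i
    rw [Perm.mul_apply, Perm.mul_apply]
    by_cases h1 : i = a
    · rw [h1, hgva, hga]
    by_cases h2 : i = b
    · rw [h2, hgvb, hgb]
    by_cases h3 : i = v a
    · rw [h3, R.app_sq hv, hga, hgva, R.app_sq hv]
    by_cases h4 : i = v b
    · rw [h4, R.app_sq hv, hgb, hgvb, R.app_sq hv]
    rw [hgi i h1 h2 h3 h4, hgi (v i)]
    · intro h0; apply h3; rw [← h0, R.app_sq hv]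
    · intro h0; apply h4; rw [← h0, R.app_sq hv]
    · intro h0; exact h1 (v.injective h0)
    · intro h0; exact h2 (v.injective h0)
  have hy' := R.cj hgK hv hv1 hgv y hy
  have hz := V.mul_mem hy hy'
  refine Or.inl ⟨_, hz, ?_, ?_⟩
  · intro h0
    have := congrArg (fun f : Perm α => f a) h0
    simp only [Perm.mul_apply, Perm.one_apply, hgb', hb, hgvb, hyva] at this
    exact hva this
  · refine le_trans (Finset.card_le_card (t := {a, b, v a, v b}) ?_) Finset.card_le_four
    intro i hi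
    by_contra hcon
    simp only [Finset.mem_insert, Finset.mem_singleton, not_or] at hcon
    obtain ⟨c1, c2, c3, c4⟩ := hcon
    apply Perm.mem_support.1 hi
    simp only [Perm.mul_apply]
    rw [hgi' i c1 c2 c3 c4, hgi (y i), R.app_sq hy]
    · intro h; apply c1; rw [← R.app_sq hy i, h, ha]
    · intro h; apply c4; rw [← R.app_sq hy i, h, hb]
    · intro h; apply c3; rw [← R.app_sq hy i, h, hyva]
    · intro h; apply c2; rw [← R.app_sq hy i, h, hyvb]

theorem caseA (hK : alternatingGroup α ≤ K) (R : Rel K V) (hbig : Big V) {v : Perm α}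
    (hv : v ∈ V) (hv1 : v ≠ 1) (h5 : v.support.card + 5 ≤ Fintype.card α) : FourType V := by
  have key : ∀ u ∈ V, u ≠ 1 → u.support.card + 5 ≤ Fintype.card α → ∀ x ∈ V,
      x.support ⊆ u.support := by
    intro u hu hu1 hu5 x hx i hi
    by_contra hcon
    rw [Perm.notMem_support] at hcon
    have := lemA3 hK R hu hu1 hx hcon (Perm.mem_support.1 hi)
    omega
  have heq : ∀ x ∈ V, x ≠ 1 → x.support = v.support := by
    intro x hx hx1
    apply Finset.Subset.antisymm (key v hv hv1 h5 x hx)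
    apply key x hx hx1 _ v hv
    have := Finset.card_le_card (key v hv hv1 h5 x hx)
    omega
  obtain ⟨x, hx, hx1, hxv⟩ := hbig v hv
  obtain ⟨a, ha⟩ : ∃ a, v a ≠ a := by
    by_contra hcon
    push Not at hcon
    exact hv1 (Perm.ext hcon)
  have hav : a ∈ v.support := Perm.mem_support.2 ha
  have hxa : x a ≠ a := by
    rw [← Perm.mem_support, heq x hx hx1]; exact hav
  have hvx : v * x ≠ 1 := by
    intro h0
    apply hxv
    calc x = (v * v) * x := by rw [R.sq v hv, one_mul]
      _ = v * (v * x) := by rw [mul_assoc]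
      _ = v := by rw [h0, mul_one]
  have hxva : x a ≠ v a := by
    intro h0
    have : a ∈ (v * x).support := by rw [heq _ (V.mul_mem hv hx) hvx]; exact hav
    apply Perm.mem_support.1 this
    rw [Perm.mul_apply, h0, R.app_sq hv]
  have hT : TCond K v := by
    right
    have : 1 < (v.supportᶜ).card := by rw [Finset.card_compl]; omega
    obtain ⟨p, hp, q, hq, hpq⟩ := Finset.one_lt_card.1 this
    exact ⟨p, q, hpq, by simpa using hp, by simpa using hq⟩
  obtain ⟨z, hz, hz1, hz2⟩ := lemT hK R hv hv1 hT hx ha hxa hxva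
  refine ⟨v.support, ?_, heq⟩
  apply le_antisymm
  · rw [← heq z hz hz1]
    exact le_trans (Finset.card_le_card hz2) Finset.card_le_four
  · have hsub : ({a, v a, x a, x (v a)} : Finset α) ⊆ v.support := by
      intro i hi
      simp only [Finset.mem_insert, Finset.mem_singleton] at hi
      rcases hi with rfl | rfl | rfl | rfl
      · exact hav
      · rw [Perm.apply_mem_support]; exact hav
      · rw [← heq x hx hx1, Perm.apply_mem_support, heq x hx hx1]; exact hav
      · rw [← heq x hx hx1, Perm.apply_mem_support, heq x hx hx1, Perm.apply_mem_support]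
        exact hav
    refine le_trans ?_ (Finset.card_le_card hsub)
    have e1 : v a ≠ x (v a) := by
      intro h0
      apply hxa
      apply v.injective
      rw [R.app_comm hv hx, ← h0]
    have e2 : a ≠ x (v a) := by
      intro h0
      apply hxva
      rw [h0, R.app_sq hx, ← h0]
    have e3 : x a ≠ x (v a) := fun h0 => ha (x.injective h0).symm
    rw [Finset.card_insert_of_notMem, Finset.card_insert_of_notMem,
      Finset.card_insert_of_notMem, Finset.card_singleton]
    · simpa using e3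
    · simp only [Finset.mem_insert, Finset.mem_singleton, not_or]
      exact ⟨Ne.symm hxva, e1⟩
    · simp only [Finset.mem_insert, Finset.mem_singleton, not_or]
      exact ⟨Ne.symm ha, Ne.symm hxa, e2⟩

end lemmas

end NRT
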