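import Pool.Agent.Helper37.NRT.Large

/-!
# MP_b5afc9_al: the structure of TI-subgroups in large symmetric and alternating groups
-/

namespace NRT

open Equiv Equiv.Perm

variable {α : Type*} [Fintype α] [DecidableEq α] {K V : Subgroup (Perm α)}

omit [DecidableEq α] [Fintype α] in
theorem exists_moved {v : Perm α} (hv1 : v ≠ 1) : ∃ a, v a ≠ a := by
  by_contra hcon
  push Not at hcon
  exact hv1 (Perm.ext hcon)

omit [DecidableEq α] [Fintype α] in
theorem Rel.mul_ne (R : Rel K V) {v x : Perm α} (hv : v ∈ V) (hxv : x ≠ v) : v * x ≠ 1 := by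
  intro h0
  apply hxv
  calc x = (v * v) * x := by rw [R.sq v hv, one_mul]
    _ = v * (v * x) := by rw [mul_assoc]
    _ = v := by rw [h0, mul_one]

omit [Fintype α] [DecidableEq α] in
theorem Big.exists_one (hbig : Big V) : ∃ v ∈ V, v ≠ 1 := by
  obtain ⟨v, hv, hv1, -⟩ := hbig 1 V.one_mem
  exact ⟨v, hv, hv1⟩

/-- the alternating group case without transposition trick -/
theorem caseC (hK : alternatingGroup α ≤ K) (R : Rel K V) (hbig : Big V)
    (hn : 10 ≤ Fintype.card α) (hT : ∀ v ∈ V, v ≠ 1 → ¬ TCond K v) : False := by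
  have hmv : ∀ u ∈ V, ∀ w ∈ V, w ≠ 1 → ∀ i, u i ≠ i → w i ≠ i := by
    intro u hu w hw hw1 i hui hwi
    apply hT w hw hw1
    right
    exact ⟨i, u i, Ne.symm hui, hwi, by rw [R.app_comm hw hu, hwi]⟩
  obtain ⟨v, hv, hv1⟩ := hbig.exists_one
  obtain ⟨y, hy, hy1, hyv⟩ := hbig v hv
  obtain ⟨a, ha⟩ := exists_moved hv1
  have hya : y a ≠ a := hmv v hv y hy hy1 a ha
  have hyva : y a ≠ v a := by
    intro h0
    apply hmv v hv (v * y) (V.mul_mem hv hy) (R.mul_ne hv hyv) a ha
    rw [Perm.mul_apply, h0, R.app_sq hv]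
  have hcard : Fintype.card α ≤ v.support.card + 1 := by
    by_contra hcon
    apply hT v hv hv1
    right
    have : 1 < (v.supportᶜ).card := by rw [Finset.card_compl]; omega
    obtain ⟨p, hp, q, hq, hpq⟩ := Finset.one_lt_card.1 this
    exact ⟨p, q, hpq, by simpa using hp, by simpa using hq⟩
  obtain ⟨b, hb, hb'⟩ : ∃ b ∈ v.support, b ∉ ({a, v a, y a, y (v a)} : Finset α) := by
    apply Finset.exists_mem_notMem_of_card_lt_card
    refine lt_of_le_of_lt Finset.card_le_four ?_
    omega
  rw [Perm.mem_support] at hb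
  simp only [Finset.mem_insert, Finset.mem_singleton, not_or] at hb'
  obtain ⟨hba, hbva, hbya, hbyva⟩ := hb'
  have hvba : v b ≠ a := by intro h0; apply hbva; rw [← h0, R.app_sq hv]
  have hvbva : v b ≠ v a := fun h0 => hba (v.injective h0)
  have hyvb : y a ≠ v b := by
    intro h0; apply hbyva; rw [R.app_comm hy hv, h0, R.app_sq hv]
  obtain ⟨g, hg⟩ : ∃ g : Perm α, g = swap a (v a) * swap b (v b) := ⟨_, rfl⟩
  have hgK : g ∈ K := hK (by rw [hg]; exact even2 (Ne.symm ha) (Ne.symm hb))
  have hgv : g * v = v * g := by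
    rw [hg, mul_assoc, swap_comm_cyc (R.app_sq hv b), ← mul_assoc, swap_comm_cyc (R.app_sq hv a),
      mul_assoc]
  have hga : g a = v a := by
    rw [hg, Perm.mul_apply, swap_apply_of_ne_of_ne (Ne.symm hba) (Ne.symm hvba), swap_apply_left]
  have hgi : ∀ i, i ≠ a → i ≠ v a → i ≠ b → i ≠ v b → g i = i := by
    intro i h1 h2 h3 h4
    rw [hg, Perm.mul_apply, swap_apply_of_ne_of_ne h3 h4, swap_apply_of_ne_of_ne h1 h2]
  have hgi' : ∀ i, i ≠ a → i ≠ v a → i ≠ b → i ≠ v b → g⁻¹ i = i := by
    intro i h1 h2 h3 h4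
    rw [Perm.inv_eq_iff_eq]; exact (hgi i h1 h2 h3 h4).symm
  have hy' := R.cj hgK hv hv1 hgv y hy
  have hz := V.mul_mem hy hy'
  have hz1 : y * (g * y * g⁻¹) ≠ 1 := by
    intro h0
    have := congrArg (fun f : Perm α => f (y a)) h0
    simp only [Perm.mul_apply, Perm.one_apply] at this
    rw [hgi' (y a) hya hyva (Ne.symm hbya) hyvb, R.app_sq hy, hga] at this
    exact ha (y.injective this)
  have hsupp : (y * (g * y * g⁻¹)).support ⊆ {a, v a, b, v b} ∪ {y a, y (v a), y b, y (v b)} := by
    intro i hi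
    by_contra hcon
    simp only [Finset.mem_union, Finset.mem_insert, Finset.mem_singleton, not_or] at hcon
    obtain ⟨⟨c1, c2, c3, c4⟩, c5, c6, c7, c8⟩ := hcon
    apply Perm.mem_support.1 hi
    simp only [Perm.mul_apply]
    rw [hgi' i c1 c2 c3 c4, hgi (y i), R.app_sq hy]
    · intro h; apply c5; rw [← h, R.app_sq hy]
    · intro h; apply c6; rw [← h, R.app_sq hy]
    · intro h; apply c7; rw [← h, R.app_sq hy]
    · intro h; apply c8; rw [← h, R.app_sq hy]
  have h8 : (y * (g * y * g⁻¹)).support.card ≤ 8 := by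
    refine le_trans (Finset.card_le_card hsupp) (le_trans (Finset.card_union_le _ _) ?_)
    have h1 : ({a, v a, b, v b} : Finset α).card ≤ 4 := Finset.card_le_four
    have h2 : ({y a, y (v a), y b, y (v b)} : Finset α).card ≤ 4 := Finset.card_le_four
    omega
  apply hT _ hz hz1
  right
  have : 1 < ((y * (g * y * g⁻¹)).supportᶜ).card := by rw [Finset.card_compl]; omega
  obtain ⟨p, hp, q, hq, hpq⟩ := Finset.one_lt_card.1 this
  exact ⟨p, q, hpq, by simpa using hp, by simpa using hq⟩

/-- The structure theorem for large degree. -/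
theorem fourType_large (hK : alternatingGroup α ≤ K) (R : Rel K V) (hbig : Big V)
    (hn : (K = ⊤ ∧ 9 ≤ Fintype.card α) ∨ 10 ≤ Fintype.card α) : FourType V := by
  by_cases h5 : ∃ v ∈ V, v ≠ 1 ∧ v.support.card + 5 ≤ Fintype.card α
  · obtain ⟨v, hv, hv1, h5⟩ := h5
    exact caseA hK R hbig hv hv1 h5
  exfalso
  push Not at h5
  have hn9 : 9 ≤ Fintype.card α := by
    rcases hn with ⟨-, h⟩ | h <;> omega
  by_cases hT : ∃ v ∈ V, v ≠ 1 ∧ TCond K v
  · obtain ⟨v, hv, hv1, hT⟩ := hT
    obtain ⟨y, hy, hy1, hyv⟩ := hbig v hv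
    have h5v := h5 v hv hv1
    rcases lemB hK R hv hv1 hT hy hy1 hyv with ⟨z, hz, hz1, hz4⟩ | ⟨z, hz, hz1, hz2⟩
    · have := h5 z hz hz1
      omega
    · have h5z := h5 z hz hz1
      have hd : Disjoint z.support v.support := by
        rw [Finset.disjoint_left]
        intro i hi hi'
        exact (Perm.mem_support.1 hi) (hz2 i (Perm.mem_support.1 hi'))
      have := Finset.card_le_univ (z.support ∪ v.support)
      rw [Finset.card_union_of_disjoint hd] at this
      omega
  · push Not at hT
    have hnT : K ≠ ⊤ := by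
      intro h
      obtain ⟨v, hv, hv1⟩ := hbig.exists_one
      exact hT v hv hv1 (Or.inl h)
    exact caseC hK R hbig (by rcases hn with ⟨h, -⟩ | h; exact absurd h hnT; exact h) hT

/-- In the four type all involutions with the common support belong to `V`. -/
theorem fourType_all (R : Rel K V) (hbig : Big V) {S : Finset α} (hS : S.card = 4)
    (hV : ∀ x ∈ V, x ≠ 1 → x.support = S) {z : Perm α} (hz : z * z = 1) (hzS : z.support = S) :
    z ∈ V := by
  obtain ⟨v, hv, hv1⟩ := hbig.exists_one
  obtain ⟨x, hx, hx1, hxv⟩ := hbig v hv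
  obtain ⟨a, ha⟩ := exists_moved hv1
  have hvx := R.mul_ne hv hxv
  have haS : a ∈ S := by rw [← hV v hv hv1]; exact Perm.mem_support.2 ha
  have hmem : ∀ u ∈ V, ∀ i, i ∈ S → u i ∈ S := by
    intro u hu i hi
    by_cases hu1 : u = 1
    · rw [hu1]; exact hi
    · rw [← hV u hu hu1, Perm.apply_mem_support, hV u hu hu1]; exact hi
  have hmv : ∀ u ∈ V, u ≠ 1 → ∀ i ∈ S, u i ≠ i := by
    intro u hu hu1 i hi
    rw [← Perm.mem_support, hV u hu hu1]; exact hi
  have e1 : x a ≠ a := hmv x hx hx1 a haS
  have e2 : v (x a) ≠ a := hmv (v * x) (V.mul_mem hv hx) hvx a haS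
  have e3 : v (x a) ≠ x a := hmv v hv hv1 (x a) (hmem x hx a haS)
  have e4 : x a ≠ v a := by
    intro h0; apply e2; rw [h0, R.app_sq hv]
  have e5 : v (x a) ≠ v a := fun h0 => e1 (v.injective h0)
  have hSeq : S = {a, v a, x a, v (x a)} := by
    symm
    apply Finset.eq_of_subset_of_card_le
    · intro i hi
      simp only [Finset.mem_insert, Finset.mem_singleton] at hi
      rcases hi with rfl | rfl | rfl | rfl
      · exact haS
      · exact hmem v hv _ haS
      · exact hmem x hx _ haS
      · exact hmem v hv _ (hmem x hx _ haS)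
    · rw [hS, Finset.card_insert_of_notMem, Finset.card_insert_of_notMem,
        Finset.card_insert_of_notMem, Finset.card_singleton]
      · simpa using e3.symm
      · simp only [Finset.mem_insert, Finset.mem_singleton, not_or]
        exact ⟨e4.symm, e5.symm⟩
      · simp only [Finset.mem_insert, Finset.mem_singleton, not_or]
        exact ⟨ha.symm, e1.symm, e2.symm⟩
  -- an involution with support `S` is determined by the image of `a`
  have huniq : ∀ u w : Perm α, u * u = 1 → w * w = 1 → u.support = S → w.support = S →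
      u a = w a → u = w := by
    intro u w hu hw hus hws huw
    have hu' : ∀ i, u (u i) = i := fun i => by
      have := congrArg (fun f : Perm α => f i) hu
      simpa using this
    have hw' : ∀ i, w (w i) = i := fun i => by
      have := congrArg (fun f : Perm α => f i) hw
      simpa using this
    have hone : ∀ i j, i ∈ S → j ∈ S → i ≠ a → j ≠ a → i ≠ u a → j ≠ u a → i ≠ j →
        ∀ k ∈ S, k = a ∨ k = u a ∨ k = i ∨ k = j := by
      intro i j hi hj h1 h2 h3 h4 h5 k hk
      by_contra hcon
      push Not at hcon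
      have huaS : u a ∈ S := by rw [← hus, Perm.apply_mem_support, hus]; exact haS
      have hua : u a ≠ a := by rw [← Perm.mem_support, hus]; exact haS
      have : ({a, u a, i, j, k} : Finset α) ⊆ S := by
        intro l hl
        simp only [Finset.mem_insert, Finset.mem_singleton] at hl
        rcases hl with rfl | rfl | rfl | rfl | rfl <;> assumption
      have h := Finset.card_le_card this
      rw [hS, Finset.card_insert_of_notMem, Finset.card_insert_of_notMem,
        Finset.card_insert_of_notMem, Finset.card_insert_of_notMem, Finset.card_singleton] at h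
      · omega
      · simpa using hcon.2.2.2.symm
      · simp only [Finset.mem_insert, Finset.mem_singleton, not_or]
        exact ⟨h5, hcon.2.2.1.symm⟩
      · simp only [Finset.mem_insert, Finset.mem_singleton, not_or]
        exact ⟨h3.symm, h4.symm, hcon.2.1.symm⟩
      · simp only [Finset.mem_insert, Finset.mem_singleton, not_or]
        exact ⟨hua.symm, h1.symm, h2.symm, hcon.1.symm⟩
    ext i
    by_cases hi : i ∈ S
    · by_cases h1 : i = a
      · rw [h1, huw]
      by_cases h2 : i = u a
      · rw [h2, hu']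
        rw [huw, hw']
      have hui : u i ≠ i := by rw [← Perm.mem_support, hus]; exact hi
      have hwi : w i ≠ i := by rw [← Perm.mem_support, hws]; exact hi
      have huiS : u i ∈ S := by rw [← hus, Perm.apply_mem_support, hus]; exact hi
      have hwiS : w i ∈ S := by rw [← hws, Perm.apply_mem_support, hws]; exact hi
      have k1 : u i ≠ a := by intro h0; apply h2; rw [← h0, hu']
      have k2 : u i ≠ u a := fun h0 => h1 (u.injective h0)
      have k3 : w i ≠ a := by intro h0; apply h2; rw [huw, ← h0, hw']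
      have k4 : w i ≠ u a := by rw [huw]; exact fun h0 => h1 (w.injective h0)
      rcases hone i (u i) hi huiS h1 k1 h2 k2 (Ne.symm hui) (w i) hwiS with h | h | h | h
      · exact absurd h k3
      · exact absurd h k4
      · exact absurd h hwi
      · exact h.symm
    · have h1 : u i = i := by rw [← hus, Perm.notMem_support] at hi; exact hi
      have h2 : w i = i := by rw [← hws, Perm.notMem_support] at hi; exact hi
      rw [h1, h2]
  have hza : z a ∈ S := by rw [← hzS, Perm.apply_mem_support, hzS]; exact haS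
  have hza' : z a ≠ a := by rw [← Perm.mem_support, hzS]; exact haS
  rw [hSeq] at hza
  simp only [Finset.mem_insert, Finset.mem_singleton] at hza
  rcases hza with h | h | h | h
  · exact absurd h hza'
  · rw [huniq z v hz (R.sq v hv) hzS (hV v hv hv1) h]; exact hv
  · rw [huniq z x hz (R.sq x hx) hzS (hV x hx hx1) h]; exact hx
  · have hvxV := V.mul_mem hv hx
    rw [huniq z (v * x) hz (R.sq _ hvxV) hzS (hV _ hvxV hvx) h]; exact hvxV

/-- For degree at least eight the four type violates condition (C). -/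
theorem fourType_notC (hK : alternatingGroup α ≤ K) (R : Rel K V) (hbig : Big V)
    (hn : 8 ≤ Fintype.card α) (hF : FourType V) : ¬ RelC K V := by
  intro hC
  obtain ⟨S, hS, hV⟩ := hF
  obtain ⟨T, hTS, hT⟩ : ∃ T ⊆ Sᶜ, T.card = 4 := by
    apply Finset.exists_subset_card_eq
    rw [Finset.card_compl]; omega
  have hdST : Disjoint S T := by
    rw [Finset.disjoint_left]
    intro i hi hi'
    exact (Finset.mem_compl.1 (hTS hi')) hi
  -- a permutation mapping `S` to `T`
  obtain ⟨g, hgK, hg⟩ : ∃ g ∈ K, S.map g.toEmbedding = T := by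
    obtain ⟨g0, hg0⟩ : ∃ g : Perm α, S.map g.toEmbedding = T := by
      let e : {x // x ∈ S} ≃ {x // x ∈ T} := Finset.equivOfCardEq (by rw [hS, hT])
      refine ⟨e.extendSubtype, ?_⟩
      apply Finset.eq_of_subset_of_card_le
      · intro i hi
        rw [Finset.mem_map] at hi
        obtain ⟨j, hj, rfl⟩ := hi
        rw [Equiv.coe_toEmbedding, Equiv.extendSubtype_apply_of_mem e j hj]
        exact (e ⟨j, hj⟩).2
      · rw [Finset.card_map, hS, hT]
    obtain ⟨t1, ht1, t2, ht2, ht⟩ := Finset.one_lt_card.1 (by rw [hT]; norm_num : 1 < T.card)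
    rcases Int.units_eq_one_or (sign g0) with h | h
    · exact ⟨g0, hK (mem_alternatingGroup.2 h), hg0⟩
    · refine ⟨swap t1 t2 * g0, hK (mem_alternatingGroup.2 ?_), ?_⟩
      · rw [Perm.sign_mul, sign_swap ht, h]; rfl
      · apply Finset.eq_of_subset_of_card_le
        · intro i hi
          rw [Finset.mem_map] at hi
          obtain ⟨j, hj, rfl⟩ := hi
          rw [Equiv.coe_toEmbedding, Perm.mul_apply]
          have hgj : g0 j ∈ T := by
            rw [← hg0, Finset.mem_map]
            exact ⟨j, hj, rfl⟩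
          by_cases h1 : g0 j = t1
          · rw [h1, swap_apply_left]; exact ht2
          by_cases h2 : g0 j = t2
          · rw [h2, swap_apply_right]; exact ht1
          rw [swap_apply_of_ne_of_ne h1 h2]; exact hgj
        · rw [Finset.card_map, hS, hT]
  have hsup : ∀ y ∈ V, y ≠ 1 → (g * y * g⁻¹).support = T := by
    intro y hy hy1
    rw [Perm.support_conj, hV y hy hy1, hg]
  have hdis : ∀ x ∈ V, ∀ y ∈ V, x ≠ 1 → y ≠ 1 → Perm.Disjoint x (g * y * g⁻¹) := by
    intro x hx y hy hx1 hy1
    rw [Perm.disjoint_iff_disjoint_support, hV x hx hx1, hsup y hy hy1]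
    exact hdST
  obtain ⟨v, hv, hv1⟩ := hbig.exists_one
  have hcomm : ∀ x ∈ V, ∀ y ∈ V, x * (g * y * g⁻¹) = (g * y * g⁻¹) * x := by
    intro x hx y hy
    by_cases hx1 : x = 1
    · rw [hx1, one_mul, mul_one]
    by_cases hy1 : y = 1
    · rw [hy1]; simp
    exact (hdis x hx y hy hx1 hy1).commute.eq
  have hcs : (v * (g * v * g⁻¹)).support.card = 8 := by
    rw [(hdis v hv v hv hv1 hv1).card_support_mul, hV v hv hv1, hsup v hv hv1, hS, hT]
  obtain ⟨k, -, hk⟩ := hC g hgK hcomm v hv v hv (by
    intro h0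
    rw [h0] at hcs
    simp at hcs)
  have hk1 : k * (v * (g * v * g⁻¹)) * k⁻¹ ≠ 1 := by
    intro h0
    have : v * (g * v * g⁻¹) = 1 := by
      calc v * (g * v * g⁻¹) = k⁻¹ * (k * (v * (g * v * g⁻¹)) * k⁻¹) * k := by group
        _ = 1 := by rw [h0]; group
    rw [this] at hcs
    simp at hcs
  have := congrArg Finset.card (hV _ hk hk1)
  rw [Perm.card_support_conj, hcs, hS] at this
  omega

/-- For degree at most five the four type is of root type. -/
theorem fourType_notNR (R : Rel K V) (hbig : Big V) (hn : Fintype.card α ≤ 5)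
    (hF : FourType V) : ¬ RelNR K V := by
  rintro ⟨g, hg, ⟨v, hv, hv1, hvn⟩, u, hu, w, hw, huw⟩
  obtain ⟨S, hS, hV⟩ := hF
  have hmap : ∀ h : Perm α, ∀ y ∈ V, y ≠ 1 → (h * y * h⁻¹).support = S.map h.toEmbedding := by
    intro h y hy hy1
    rw [Perm.support_conj, hV y hy hy1]
  by_cases hgS : S.map g.toEmbedding = S
  · have hall := fun (z : Perm α) hz hzS => fourType_all R hbig hS hV (z := z) hz hzS
    have hin : ∀ h : Perm α, S.map h.toEmbedding = S → ∀ y ∈ V, h * y * h⁻¹ ∈ V := by
      intro h hh y hy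
      by_cases hy1 : y = 1
      · rw [hy1]; simp [V.one_mem]
      · apply hall
        · have : h * y * h⁻¹ * (h * y * h⁻¹) = h * (y * y) * h⁻¹ := by group
          rw [this, R.sq y hy]; group
        · rw [hmap h y hy hy1, hh]
    have hgS' : S.map (g⁻¹).toEmbedding = S := by
      conv_lhs => rw [← hgS]
      rw [Finset.map_map]
      ext i
      simp
    apply huw
    have h1 := hin g hgS w hw
    have h2 := V.mul_mem (V.mul_mem hu h1) (V.inv_mem hu)
    have h3 := hin g⁻¹ hgS' _ h2
    rwa [inv_inv] at h3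
  · -- `v` fixes a point of `S`
    have hTc : (S.map g.toEmbedding).card = 4 := by rw [Finset.card_map, hS]
    obtain ⟨s, hs, hsT⟩ : ∃ s ∈ S, s ∉ S.map g.toEmbedding := by
      by_contra hcon
      push Not at hcon
      exact hgS (Finset.eq_of_subset_of_card_le hcon (by rw [hTc, hS])).symm
    have hvT : (S.map g.toEmbedding).map v.toEmbedding = S.map g.toEmbedding := by
      have h1 := hvn v hv
      have h2 : g⁻¹ * (v * (g * v * g⁻¹) * v⁻¹) * g ≠ 1 := by
        intro h0
        apply hv1
        calc v = (v * g)⁻¹ * g * (g⁻¹ * (v * (g * v * g⁻¹) * v⁻¹) * g) * g⁻¹ * (v * g) := by group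
          _ = 1 := by rw [h0]; group
      have h3 := hmap g _ h1 h2
      have h4 : g * (g⁻¹ * (v * (g * v * g⁻¹) * v⁻¹) * g) * g⁻¹ = v * (g * v * g⁻¹) * v⁻¹ := by
        group
      rw [h4, Perm.support_conj, hmap g v hv hv1] at h3
      exact h3
    have hvs : v s ≠ s := by
      rw [← Perm.mem_support, hV v hv hv1]; exact hs
    have hvs' : v s ∈ S.map g.toEmbedding := by
      by_contra hcon
      have : ({s, v s} : Finset α) ⊆ (S.map g.toEmbedding)ᶜ := by
        intro i hi
        simp only [Finset.mem_insert, Finset.mem_singleton] at hi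
        rw [Finset.mem_compl]
        rcases hi with rfl | rfl <;> assumption
      have h5 := Finset.card_le_card this
      rw [Finset.card_compl, hTc, Finset.card_pair (Ne.symm hvs)] at h5
      omega
    apply hsT
    rw [← hvT, Finset.mem_map]
    exact ⟨v s, hvs', by rw [Equiv.coe_toEmbedding, R.app_sq hv]⟩

end NRT
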