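import Pool.Agent.Helper37.NRT.Large2

/-!
# MP_b5afc9_al: small degrees, nonexistence
-/

namespace NRT

open Equiv Equiv.Perm

theorem RelNR.big {H : Type*} [Group H] {K V : Subgroup H} (h : RelNR K V) : Big V := by
  obtain ⟨g, -, ⟨v, hv, hv1, hvn⟩, u, hu, w, hw, huw⟩ := h
  have huv : u ≠ v := by
    rintro rfl
    exact huw (hvn w hw)
  have hu1 : u ≠ 1 := by
    rintro rfl
    apply huw
    have : g⁻¹ * (1 * (g * w * g⁻¹) * 1⁻¹) * g = w := by group
    rw [this]; exact hw
  intro a _
  by_cases h : a = v
  · exact ⟨u, hu, hu1, by rw [h]; exact huv⟩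
  · exact ⟨v, hv, hv1, Ne.symm h⟩

variable {α : Type*} [Fintype α] [DecidableEq α] {K V : Subgroup (Perm α)}

theorem even_support (R : Rel K V) {v : Perm α} (hv : v ∈ V) : 2 ∣ v.support.card := by
  apply Equiv.Perm.two_dvd_card_support
  rw [pow_two]; exact R.sq v hv

theorem pos_support {v : Perm α} (hv1 : v ≠ 1) : 1 < v.support.card := by
  exact Equiv.Perm.one_lt_card_support_of_ne_one hv1

/-- if all supports have four elements and the degree is at most five -/
theorem fourType_small (R : Rel K V) (hbig : Big V) (hn : Fintype.card α ≤ 5)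
    (h4 : ∀ v ∈ V, v ≠ 1 → v.support.card = 4) : FourType V := by
  obtain ⟨v, hv, hv1⟩ := hbig.exists_one
  refine ⟨v.support, h4 v hv hv1, ?_⟩
  intro x hx hx1
  apply Finset.eq_of_subset_of_card_le
  · intro i hi
    by_contra hcon
    rw [Perm.mem_support] at hi
    rw [Perm.notMem_support] at hcon
    have hxi : v (x i) = x i := by rw [R.app_comm hv hx, hcon]
    have : ({i, x i} : Finset α) ⊆ v.supportᶜ := by
      intro j hj
      simp only [Finset.mem_insert, Finset.mem_singleton] at hj
      rw [Finset.mem_compl, Perm.notMem_support]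
      rcases hj with rfl | rfl
      · exact hcon
      · exact hxi
    have h5 := Finset.card_le_card this
    rw [Finset.card_compl, h4 v hv hv1, Finset.card_pair (Ne.symm hi)] at h5
    omega
  · rw [h4 v hv hv1, h4 x hx hx1]

/-- no transpositions in degree at most five, different from four -/
theorem no_two (hK : alternatingGroup α ≤ K) (R : Rel K V) (hbig : Big V)
    (hn : Fintype.card α ≤ 5) (hn4 : Fintype.card α ≠ 4) {v : Perm α} (hv : v ∈ V) :
    v.support.card ≠ 2 := by
  intro h2
  have hv1 : v ≠ 1 := by
    rintro rfl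
    simp at h2
  obtain ⟨x, hx, hx1, hxv⟩ := hbig v hv
  by_cases hall : ∀ i, v i = i → x i = i
  · -- equal supports
    have hsub : x.support ⊆ v.support := by
      intro i hi
      by_contra hcon
      rw [Perm.notMem_support] at hcon
      exact (Perm.mem_support.1 hi) (hall i hcon)
    have heq : x.support = v.support := by
      apply Finset.eq_of_subset_of_card_le hsub
      rw [h2]; exact pos_support hx1
    obtain ⟨a, ha⟩ := exists_moved hv1
    have haS : a ∈ v.support := Perm.mem_support.2 ha
    have hvaS : v a ∈ v.support := by rw [Perm.apply_mem_support]; exact haS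
    have hxaS : x a ∈ v.support := by
      rw [← heq, Perm.apply_mem_support, heq]; exact haS
    have hxa : x a ≠ a := by rw [← Perm.mem_support, heq]; exact haS
    have hS : v.support = {a, v a} := by
      symm
      apply Finset.eq_of_subset_of_card_le
      · intro i hi
        simp only [Finset.mem_insert, Finset.mem_singleton] at hi
        rcases hi with rfl | rfl <;> assumption
      · rw [h2, Finset.card_pair (Ne.symm ha)]
    have hxa2 : x a = v a := by
      rw [hS] at hxaS
      simp only [Finset.mem_insert, Finset.mem_singleton] at hxaS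
      exact hxaS.resolve_left hxa
    apply hxv
    ext i
    by_cases hi : i ∈ v.support
    · rw [hS] at hi
      simp only [Finset.mem_insert, Finset.mem_singleton] at hi
      rcases hi with rfl | rfl
      · exact hxa2
      · rw [R.app_sq hv, ← hxa2, R.app_sq hx]
    · rw [Perm.notMem_support] at hi
      rw [hi, hall i hi]
  · push Not at hall
    obtain ⟨c, hc, hxc⟩ := hall
    have hvxc : v (x c) = x c := by rw [R.app_comm hv hx, hc]
    have hF : (v.supportᶜ).card = Fintype.card α - 2 := by rw [Finset.card_compl, h2]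
    have hsub2 : ({c, x c} : Finset α) ⊆ v.supportᶜ := by
      intro j hj
      simp only [Finset.mem_insert, Finset.mem_singleton] at hj
      rw [Finset.mem_compl, Perm.notMem_support]
      rcases hj with rfl | rfl
      · exact hc
      · exact hvxc
    have h5 := Finset.card_le_card hsub2
    rw [Finset.card_pair (Ne.symm hxc)] at h5
    have hn5 : Fintype.card α = 5 := by omega
    obtain ⟨d, hd, hd'⟩ : ∃ d ∈ v.supportᶜ, d ∉ ({c, x c} : Finset α) := by
      apply Finset.exists_mem_notMem_of_card_lt_card
      rw [Finset.card_pair (Ne.symm hxc)]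
      omega
    simp only [Finset.mem_insert, Finset.mem_singleton, not_or] at hd'
    rw [Finset.mem_compl, Perm.notMem_support] at hd
    have hxd : x d ≠ d := fun h => lemA1 hK R hv hv1 hx hc hd hxc h
    have hvxd : v (x d) = x d := by rw [R.app_comm hv hx, hd]
    have hsub4 : ({c, x c, d, x d} : Finset α) ⊆ v.supportᶜ := by
      intro j hj
      simp only [Finset.mem_insert, Finset.mem_singleton] at hj
      rw [Finset.mem_compl, Perm.notMem_support]
      rcases hj with rfl | rfl | rfl | rfl <;> assumption
    have h6 := Finset.card_le_card hsub4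
    rw [Finset.card_insert_of_notMem, Finset.card_insert_of_notMem,
      Finset.card_insert_of_notMem, Finset.card_singleton] at h6
    · omega
    · simpa using hxd.symm
    · simp only [Finset.mem_insert, Finset.mem_singleton, not_or]
      exact ⟨Ne.symm hd'.2, fun h => hd'.1 (x.injective h).symm⟩
    · simp only [Finset.mem_insert, Finset.mem_singleton, not_or]
      exact ⟨Ne.symm hxc, Ne.symm hd'.1, fun h => hd'.2 (by rw [h, R.app_sq hx])⟩

/-- degree at most five, full symmetric group, degree different from four: not of non-root type -/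
theorem sym_small (R : Rel ⊤ V) (hn : Fintype.card α ≤ 5) (hn4 : Fintype.card α ≠ 4) :
    ¬ RelNR ⊤ V := by
  intro h
  have hbig := h.big
  refine fourType_notNR R hbig hn (fourType_small R hbig hn ?_) h
  intro v hv hv1
  have h1 := pos_support hv1
  have h2 := even_support R hv
  have h3 := no_two le_top R hbig hn hn4 hv
  have h4 := Finset.card_le_univ v.support
  omega

/-- degree at most five, alternating group: not of non-root type -/
theorem alt_small (R : Rel (alternatingGroup α) V) (hn : Fintype.card α ≤ 5) :
    ¬ RelNR (alternatingGroup α) V := by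
  intro h
  have hbig := h.big
  refine fourType_notNR R hbig hn (fourType_small R hbig hn ?_) h
  intro v hv hv1
  have h1 := pos_support hv1
  have h2 := even_support R hv
  have h4 := Finset.card_le_univ v.support
  have h3 : v.support.card ≠ 2 := by
    intro h2
    rw [Perm.card_support_eq_two] at h2
    have h5 := h2.sign_eq
    have h6 := mem_alternatingGroup.1 (R.le hv)
    rw [h5] at h6
    exact absurd h6 (by decide)
  omega

/-- degree eight, symmetric group -/
theorem sym_eight (R : Rel ⊤ V) (hn : Fintype.card α = 8) (hnr : RelNR ⊤ V) : ¬ RelC ⊤ V := by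
  intro hC
  have hbig := hnr.big
  have hK : alternatingGroup α ≤ ⊤ := le_top
  by_cases h5 : ∃ v ∈ V, v ≠ 1 ∧ v.support.card + 5 ≤ Fintype.card α
  · obtain ⟨v, hv, hv1, h5⟩ := h5
    exact fourType_notC hK R hbig (by omega) (caseA hK R hbig hv hv1 h5) hC
  push Not at h5
  obtain ⟨w, hw, hw1, hw4⟩ : ∃ w ∈ V, w ≠ 1 ∧ w.support.card ≤ 4 := by
    obtain ⟨v, hv, hv1⟩ := hbig.exists_one
    obtain ⟨y, hy, hy1, hyv⟩ := hbig v hv
    rcases lemB hK R hv hv1 (Or.inl rfl) hy hy1 hyv with h | ⟨z, hz, hz1, hz2⟩
    · exact h
    · refine ⟨z, hz, hz1, ?_⟩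
      have hd : Disjoint z.support v.support := by
        rw [Finset.disjoint_left]
        intro i hi hi'
        exact (Perm.mem_support.1 hi) (hz2 i (Perm.mem_support.1 hi'))
      have h1 := Finset.card_le_univ (z.support ∪ v.support)
      rw [Finset.card_union_of_disjoint hd] at h1
      have h2 := h5 v hv hv1
      omega
  have hw4' : w.support.card = 4 := by
    have := h5 w hw hw1
    omega
  by_cases hall : ∀ x ∈ V, ∀ i, w i = i → x i = i
  · refine fourType_notC hK R hbig (by omega) ⟨w.support, hw4', ?_⟩ hC
    intro x hx hx1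
    apply Finset.eq_of_subset_of_card_le
    · intro i hi
      by_contra hcon
      rw [Perm.notMem_support] at hcon
      exact (Perm.mem_support.1 hi) (hall x hx i hcon)
    · have := h5 x hx hx1
      omega
  · push Not at hall
    obtain ⟨x, hx, c, hc, hxc⟩ := hall
    have hF : (w.supportᶜ).card = 4 := by rw [Finset.card_compl]; omega
    obtain ⟨d, hd, hd'⟩ : ∃ d ∈ w.supportᶜ, d ∉ ({c, x c} : Finset α) := by
      apply Finset.exists_mem_notMem_of_card_lt_card
      rw [Finset.card_pair (Ne.symm hxc)]
      omega
    simp only [Finset.mem_insert, Finset.mem_singleton, not_or] at hd'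
    rw [Finset.mem_compl, Perm.notMem_support] at hd
    obtain ⟨z, hz, hz1, hzc, hzs⟩ := (lemA2 hK R hw hw1 hx hc hd hxc hd'.1 hd'.2).1
    have hwxc : w (x c) = x c := by rw [R.app_comm hw hx, hc]
    have hwxd : w (x d) = x d := by rw [R.app_comm hw hx, hd]
    have hzfix : ∀ i, w i ≠ i → z i = i := by
      intro i hi
      by_contra hcon
      have h1 := hzs (Perm.mem_support.2 hcon)
      simp only [Finset.mem_insert, Finset.mem_singleton] at h1
      rcases h1 with rfl | rfl | rfl | rfl
      · exact hi hc
      · exact hi hwxc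
      · exact hi hd
      · exact hi hwxd
    obtain ⟨a, ha⟩ := exists_moved hw1
    have hac : a ≠ c := by rintro rfl; exact ha hc
    have had : a ≠ d := by rintro rfl; exact ha hd
    have hwwa : w (w a) ≠ w a := fun h => ha (w.injective h)
    have hwac : w a ≠ c := by intro h; apply hwwa; rw [h, hc]
    have hwad : w a ≠ d := by intro h; apply hwwa; rw [h, hd]
    have hcd : c ≠ d := Ne.symm hd'.1
    -- the element `v = w z`
    obtain ⟨v, hvdef⟩ : ∃ v, v = w * z := ⟨_, rfl⟩
    have hv : v ∈ V := by rw [hvdef]; exact V.mul_mem hw hz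
    have hva : v a = w a := by rw [hvdef, Perm.mul_apply, hzfix a ha]
    have hvc : v c = d := by rw [hvdef, Perm.mul_apply, hzc, hd]
    have hvwa : v (w a) = a := by rw [← hva, R.app_sq hv]
    have hvd : v d = c := by rw [← hvc, R.app_sq hv]
    have hv1 : v ≠ 1 := by
      intro h0
      rw [h0] at hva
      exact ha hva.symm
    obtain ⟨g, hg⟩ : ∃ g : Perm α, g = swap a c * swap (w a) d := ⟨_, rfl⟩
    have hcm : swap (w a) d * swap a c = swap a c * swap (w a) d := by
      rw [mul_swap_eq_swap_mul, swap_apply_of_ne_of_ne (Ne.symm ha) had,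
        swap_apply_of_ne_of_ne (Ne.symm hwac) hcd]
    have e1 : v * swap a c = swap (w a) d * v := by
      rw [mul_swap_eq_swap_mul v, hva, hvc]
    have e2 : v * swap (w a) d = swap a c * v := by
      rw [mul_swap_eq_swap_mul v, hvwa, hvd]
    have hgv : g * v = v * g := by
      rw [hg, ← mul_assoc, e1, mul_assoc (swap (w a) d), e2, ← mul_assoc, hcm]
    have hgc : g c = a := by
      rw [hg, Perm.mul_apply, swap_apply_of_ne_of_ne (Ne.symm hwac) hcd, swap_apply_right]
    have hgc' : g⁻¹ a = c := by rw [Perm.inv_eq_iff_eq]; exact hgc.symm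
    have hgi : ∀ i, i ≠ a → i ≠ c → i ≠ w a → i ≠ d → g i = i := by
      intro i h1 h2 h3 h4
      rw [hg, Perm.mul_apply, swap_apply_of_ne_of_ne h3 h4, swap_apply_of_ne_of_ne h1 h2]
    have hgi' : ∀ i, i ≠ a → i ≠ c → i ≠ w a → i ≠ d → g⁻¹ i = i := by
      intro i h1 h2 h3 h4
      rw [Perm.inv_eq_iff_eq]; exact (hgi i h1 h2 h3 h4).symm
    have hy := R.cj (Subgroup.mem_top g) hv hv1 hgv w hw
    obtain ⟨b, hb, hb'⟩ : ∃ b ∈ w.support, b ∉ ({a, w a} : Finset α) := by
      apply Finset.exists_mem_notMem_of_card_lt_card
      rw [Finset.card_pair (Ne.symm ha)]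
      omega
    simp only [Finset.mem_insert, Finset.mem_singleton, not_or] at hb'
    rw [Perm.mem_support] at hb
    have hbc : b ≠ c := by rintro rfl; exact hb hc
    have hbd : b ≠ d := by rintro rfl; exact hb hd
    have hwb : w (w b) ≠ w b := fun h => hb (w.injective h)
    have hwba : w b ≠ a := by intro h; apply hb'.2; rw [← h, R.app_sq hw]
    have hwbwa : w b ≠ w a := fun h => hb'.1 (w.injective h)
    have hwbc : w b ≠ c := by intro h; apply hwb; rw [h, hc]
    have hwbd : w b ≠ d := by intro h; apply hwb; rw [h, hd]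
    refine lemA1 hK R hz hz1 hy (a := b) (d := a) (hzfix b hb) (hzfix a ha) ?_ ?_
    · simp only [Perm.mul_apply]
      rw [hgi' b hb'.1 hbc hb'.2 hbd, hgi (w b) hwba hwbc hwbwa hwbd]
      exact hb
    · simp only [Perm.mul_apply]
      rw [hgc', hc, hgc]

/-- Nonexistence, symmetric groups. -/
theorem sym_necessary {n : ℕ} (h : HasNonRoot (Perm (Fin n))) : n = 4 ∨ n = 6 ∨ n = 7 := by
  obtain ⟨V, h1, h2, h3, h4⟩ := h
  have hinj : Function.Injective (MonoidHom.id (Perm (Fin n))) := fun x y h => h
  have R := rel_of _ hinj V h1 h2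
  have hnr := relNR_of _ hinj V h3
  have hC := relC_of _ hinj V h1 h4
  have hr : (MonoidHom.id (Perm (Fin n))).range = ⊤ :=
    MonoidHom.range_eq_top.2 fun x => ⟨x, rfl⟩
  rw [hr] at R hnr hC
  by_contra hcon
  push Not at hcon
  obtain ⟨c4, c6, c7⟩ := hcon
  have hcard : Fintype.card (Fin n) = n := Fintype.card_fin n
  by_cases h5 : n ≤ 5
  · exact sym_small R (by omega) (by omega) hnr
  by_cases h8 : n = 8
  · exact sym_eight R (by omega) hnr hC
  · exact fourType_notC le_top R hnr.big (by omega)
      (fourType_large le_top R hnr.big (Or.inl ⟨rfl, by omega⟩)) hC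

/-- Nonexistence, alternating groups. -/
theorem alt_necessary {n : ℕ} (h : HasNonRoot (alternatingGroup (Fin n))) : 6 ≤ n ∧ n ≤ 9 := by
  obtain ⟨V, h1, h2, h3, h4⟩ := h
  have hinj : Function.Injective (alternatingGroup (Fin n)).subtype := Subtype.val_injective
  have R := rel_of _ hinj V h1 h2
  have hnr := relNR_of _ hinj V h3
  have hC := relC_of _ hinj V h1 h4
  rw [Subgroup.range_subtype] at R hnr hC
  have hcard : Fintype.card (Fin n) = n := Fintype.card_fin n
  constructor
  · by_contra hcon
    exact alt_small R (by omega) hnr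
  · by_contra hcon
    exact fourType_notC le_rfl R hnr.big (by omega)
      (fourType_large le_rfl R hnr.big (Or.inr (by omega))) hC

end NRT
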